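import Pool.Agent.Lib.MP_0d9be2_nt.H36.SolomonP

/-!
# The group lemma (A) of Theorem S
-/

set_option autoImplicit false

namespace Pool.Agent.MP_0d9be2.H36

variable {G : Type*} [Group G] [Finite G]

/-- An element of a `p`-hyperelementary group of order prime to `p` lies in the cyclic part. -/
theorem mem_of_pow_prime {H : Type*} [Group H] {C : Subgroup H} [C.Normal]
    {p k : ℕ} (hk : C.index = p ^ k) {x : H} {m : ℕ} (hm : Nat.Coprime p m) (hx : x ^ m = 1) :
    x ∈ C := by
  have h1 : x ^ p ^ k ∈ C := by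
    rw [← hk]
    exact Subgroup.pow_index_mem C x
  have h2 : Nat.gcd (p ^ k) m = 1 := Nat.Coprime.pow_left k hm
  have h3 := Nat.gcd_eq_gcd_ab (p ^ k) m
  rw [h2] at h3
  have h4 : x = (x ^ p ^ k) ^ (Nat.gcdA (p ^ k) m) * (x ^ m) ^ (Nat.gcdB (p ^ k) m) := by
    rw [← zpow_natCast, ← zpow_natCast, ← zpow_mul, ← zpow_mul, ← zpow_add]
    push_cast at h3 ⊢
    rw [← h3]
    exact (zpow_one x).symm
  rw [h4, hx, one_zpow, mul_one]
  exact C.zpow_mem h1 _

/-- The case analysis: a conjugacy class under `N` meets a hyperelementary subgroup in at most `l`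
elements. -/
theorem card_inter_le (N : Subgroup G) [hN : N.Normal] {l : ℕ} (hl : l.Prime)
    (hab : ∀ a ∈ N, ∀ b ∈ N, a * b = b * a) (hexp : ∀ a ∈ N, a ^ l = 1) (hind : ¬ l ∣ N.index)
    {p : ℕ} (hp : p.Prime) (H : Subgroup G) (hH : IsPHyper p H) (g : G) :
    Nat.card {y : G // (∃ n ∈ N, y = n⁻¹ * g * n) ∧ y ∈ H} ≤ l := by
  classical
  obtain ⟨C, hCn, hcyc, hdvd, k, hk⟩ := hH
  rcases isEmpty_or_nonempty {y : G // (∃ n ∈ N, y = n⁻¹ * g * n) ∧ y ∈ H} with hemp | ⟨⟨g₁, hg₁, hg₁H⟩⟩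
  · rw [Nat.card_of_isEmpty]
    exact Nat.zero_le _
  -- every element of the set is m g₁ with m ∈ H ∩ N
  have hm : ∀ y : {y : G // (∃ n ∈ N, y = n⁻¹ * g * n) ∧ y ∈ H},
      ∃ n ∈ N, y.1 * g₁⁻¹ = n * g₁ * n⁻¹ * g₁⁻¹ := by
    rintro ⟨y, ⟨n, hn, rfl⟩, hyH⟩
    obtain ⟨n₁, hn₁, rfl⟩ := hg₁
    refine ⟨n⁻¹ * n₁, N.mul_mem (N.inv_mem hn) hn₁, ?_⟩
    group
  have hmem : ∀ y : {y : G // (∃ n ∈ N, y = n⁻¹ * g * n) ∧ y ∈ H}, y.1 * g₁⁻¹ ∈ H ⊓ N := by
    intro y
    refine ⟨H.mul_mem y.2.2 (H.inv_mem hg₁H), ?_⟩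
    obtain ⟨n, hn, h⟩ := hm y
    rw [h, mul_assoc, mul_assoc]
    refine N.mul_mem hn ?_
    have := hN.conj_mem n⁻¹ (N.inv_mem hn) g₁
    rw [← mul_assoc]
    exact this
  by_cases hpl : p = l
  · -- at most one element
    subst hpl
    have ht : Nat.Coprime p N.index := (Nat.Prime.coprime_iff_not_dvd hp).2 hind
    have hgen : ∀ h : H, ∃ c ∈ C, ∃ n ∈ N.subgroupOf H, h = c * n := by
      intro h
      have h1 : h ^ p ^ k ∈ C := by
        rw [← hk]
        exact Subgroup.pow_index_mem C h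
      have h2 : h ^ N.index ∈ N.subgroupOf H := by
        rw [Subgroup.mem_subgroupOf]
        exact Subgroup.pow_index_mem N (h : G)
      have h3 := Nat.gcd_eq_gcd_ab (p ^ k) N.index
      have h4 : Nat.gcd (p ^ k) N.index = 1 := Nat.Coprime.pow_left k ht
      rw [h4] at h3
      refine ⟨(h ^ p ^ k) ^ (Nat.gcdA (p ^ k) N.index), C.zpow_mem h1 _,
        (h ^ N.index) ^ (Nat.gcdB (p ^ k) N.index), (N.subgroupOf H).zpow_mem h2 _, ?_⟩
      rw [← zpow_natCast, ← zpow_natCast, ← zpow_mul, ← zpow_mul, ← zpow_add]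
      push_cast at h3 ⊢
      rw [← h3]
      exact (zpow_one h).symm
    have hcent : ∀ c ∈ C, ∀ m ∈ N.subgroupOf H, c * m = m * c := by
      intro c hc m hm
      have h1 : c * m * c⁻¹ * m⁻¹ ∈ C := by
        have := hCn.conj_mem c⁻¹ (C.inv_mem hc) m
        have h2 : c * m * c⁻¹ * m⁻¹ = c * (m * c⁻¹ * m⁻¹) := by group
        rw [h2]
        exact C.mul_mem hc this
      have h2 : ((c * m * c⁻¹ * m⁻¹ : H) : G) ∈ N := by
        have h3 : ((m : H) : G) ∈ N := hm
        exact N.mul_mem (hN.conj_mem _ h3 (c : G)) (N.inv_mem h3)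
      have h3 : (c * m * c⁻¹ * m⁻¹) ^ p = 1 := Subtype.ext (hexp _ h2)
      have h4 : orderOf (c * m * c⁻¹ * m⁻¹) ∣ Nat.card C := by
        have := Subgroup.orderOf_dvd_natCard C h1
        exact this
      have h5 : orderOf (c * m * c⁻¹ * m⁻¹) ∣ p := orderOf_dvd_of_pow_eq_one h3
      rcases (Nat.dvd_prime hp).1 h5 with h6 | h6
      · rw [orderOf_eq_one_iff] at h6
        have h7 := mul_inv_eq_one.1 h6
        exact mul_inv_eq_iff_eq_mul.1 h7
      · rw [h6] at h4
        exact absurd h4 hdvd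
    have hone : ∀ y : {y : G // (∃ n ∈ N, y = n⁻¹ * g * n) ∧ y ∈ H}, y.1 = g₁ := by
      intro y
      obtain ⟨n, hn, h⟩ := hm y
      have hmHN := hmem y
      set m := y.1 * g₁⁻¹ with hmdef
      -- g₁ commutes with m
      have hcomm : m * g₁ = g₁ * m := by
        obtain ⟨c, hc, n', hn', hcn⟩ := hgen ⟨g₁, hg₁H⟩
        have h1 := hcent c hc ⟨m, hmHN.1⟩ hmHN.2
        have h2 : (c : G) * m = m * c := congrArg Subtype.val h1
        have h3 : g₁ = (c : G) * (n' : G) := congrArg Subtype.val hcn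
        have h4 : (n' : G) * m = m * n' := hab _ hn' _ hmHN.2
        rw [h3, ← mul_assoc, ← h2, mul_assoc, ← h4, mul_assoc]
      have h1 : m * g₁ = n * g₁ * n⁻¹ := by rw [h]; group
      have h2 : m ^ N.index * g₁ ^ N.index = g₁ ^ N.index := by
        have h3 : Commute m g₁ := hcomm
        rw [← h3.mul_pow, h1, conj_pow]
        have h4 := hab n hn _ (Subgroup.pow_index_mem N g₁)
        rw [h4, mul_assoc, mul_inv_cancel, mul_one]
      have h3 : m ^ N.index = 1 := by
        have : m ^ N.index * g₁ ^ N.index = 1 * g₁ ^ N.index := by rw [h2, one_mul]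
        exact mul_right_cancel this
      have h4 : m ^ p = 1 := hexp m hmHN.2
      have h5 : orderOf m ∣ Nat.gcd p N.index :=
        Nat.dvd_gcd (orderOf_dvd_of_pow_eq_one h4) (orderOf_dvd_of_pow_eq_one h3)
      rw [ht, Nat.dvd_one, orderOf_eq_one_iff] at h5
      exact mul_inv_eq_one.1 (hmdef ▸ h5)
    have : Subsingleton {y : G // (∃ n ∈ N, y = n⁻¹ * g * n) ∧ y ∈ H} :=
      ⟨fun a b => Subtype.ext ((hone a).trans (hone b).symm)⟩
    exact Finite.card_le_one_iff_subsingleton.2 this |>.trans hl.one_lt.le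
  · -- H ∩ N is contained in the cyclic part
    have hpl' : Nat.Coprime p l := (Nat.coprime_primes hp hl).2 hpl
    have hC : ∀ y : {y : G // (∃ n ∈ N, y = n⁻¹ * g * n) ∧ y ∈ H},
        (⟨y.1 * g₁⁻¹, (hmem y).1⟩ : H) ∈ C := by
      intro y
      refine mem_of_pow_prime hk hpl' ?_
      exact Subtype.ext (hexp _ (hmem y).2)
    have : Fintype C := Fintype.ofFinite C
    let f : {y : G // (∃ n ∈ N, y = n⁻¹ * g * n) ∧ y ∈ H} → {c : C // c ^ l = 1} :=
      fun y => ⟨⟨_, hC y⟩, Subtype.ext (Subtype.ext (hexp _ (hmem y).2))⟩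
    have hf : Function.Injective f := by
      intro a b hab'
      have h1 : a.1 * g₁⁻¹ = b.1 * g₁⁻¹ :=
        congrArg (fun z : {c : C // c ^ l = 1} => (((z : C) : H) : G)) hab'
      exact Subtype.ext (mul_right_cancel h1)
    calc Nat.card {y : G // (∃ n ∈ N, y = n⁻¹ * g * n) ∧ y ∈ H}
        ≤ Nat.card {c : C // c ^ l = 1} := Nat.card_le_card_of_injective f hf
      _ = (Finset.univ.filter fun c : C => c ^ l = 1).card := by
          rw [Nat.card_eq_fintype_card, Fintype.card_subtype]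
      _ ≤ l := IsCyclic.card_pow_eq_one_le hl.pos

omit [Finite G] in
/-- Number of elements of `G` conjugating `g` into `H`. -/
theorem card_conj_mem (H : Subgroup G) (g : G) :
    Nat.card {x : G // x⁻¹ * g * x ∈ H} = Nat.card H * Nat.card {x : G ⧸ H // g • x = x} := by
  have h1 : {x : G | x⁻¹ * g * x ∈ H} =
      (QuotientGroup.mk : G → G ⧸ H) ⁻¹' {q : G ⧸ H | g • q = q} := by
    ext x
    change x⁻¹ * g * x ∈ H ↔ g • (x : G ⧸ H) = (x : G ⧸ H)
    have h2 : g • (x : G ⧸ H) = ((g * x : G) : G ⧸ H) := rfl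
    rw [h2, eq_comm, QuotientGroup.eq, mul_assoc]
  have h2 := Nat.card_congr (QuotientGroup.preimageMkEquivSubgroupProdSet H {q : G ⧸ H | g • q = q})
  rw [← h1, Nat.card_prod] at h2
  exact h2

/-- The group lemma (A). -/
theorem group_lemma (N : Subgroup G) [hN : N.Normal] {l : ℕ} (hl : l.Prime)
    (hab : ∀ a ∈ N, ∀ b ∈ N, a * b = b * a) (hexp : ∀ a ∈ N, a ^ l = 1) (hind : ¬ l ∣ N.index)
    (r : ℕ) {p : ℕ} (hp : p.Prime) (H : Subgroup G) (hH : IsPHyper p H) (g : G)
    (hr : l ^ r ≤ Nat.card {x : G // ∃ n ∈ N, x = n * g * n⁻¹}) :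
    l ^ r * Nat.card {x : G ⧸ H // g • x = x} ≤ l * H.index := by
  classical
  have := Fintype.ofFinite G
  -- the stabiliser of g in N
  let c : ℕ := (Finset.univ.filter fun n : N => (n : G)⁻¹ * g * n = g).card
  have hcpos : 0 < c := by
    refine Finset.card_pos.2 ⟨1, ?_⟩
    simp
  let φ : N → G := fun n => (n : G)⁻¹ * g * n
  -- every nonempty fibre of φ has c elements
  have hfib : ∀ n₀ : N, (Finset.univ.filter fun n : N => φ n = φ n₀).card = c := by
    intro n₀
    refine Finset.card_bij' (fun n _ => n * n₀⁻¹) (fun n _ => n * n₀) ?_ ?_ ?_ ?_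
    · intro n hn
      rw [Finset.mem_filter] at hn ⊢
      refine ⟨Finset.mem_univ _, ?_⟩
      have h1 : (n : G)⁻¹ * g * n = (n₀ : G)⁻¹ * g * n₀ := hn.2
      have h2 : ((n * n₀⁻¹ : N) : G)⁻¹ * g * ((n * n₀⁻¹ : N) : G) =
          n₀ * ((n : G)⁻¹ * g * n) * (n₀ : G)⁻¹ := by
        push_cast
        group
      rw [h2, h1]
      group
    · intro n hn
      rw [Finset.mem_filter] at hn ⊢
      refine ⟨Finset.mem_univ _, ?_⟩
      have h1 : (n : G)⁻¹ * g * n = g := hn.2
      change ((n * n₀ : N) : G)⁻¹ * g * ((n * n₀ : N) : G) = (n₀ : G)⁻¹ * g * n₀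
      have h2 : ((n * n₀ : N) : G)⁻¹ * g * ((n * n₀ : N) : G) =
          (n₀ : G)⁻¹ * ((n : G)⁻¹ * g * n) * n₀ := by
        push_cast
        group
      rw [h2, h1]
    · intro n _
      exact inv_mul_cancel_right n n₀
    · intro n _
      exact mul_inv_cancel_right n n₀
  -- the class of g
  have hcls : l ^ r * c ≤ Nat.card N := by
    have h1 : c * (Finset.univ.image φ).card ≤ (Finset.univ : Finset N).card := by
      refine Finset.mul_card_image_le_card _ _ ?_
      intro y hy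
      obtain ⟨n₀, _, rfl⟩ := Finset.mem_image.1 hy
      exact (hfib n₀).ge
    have h2 : (Finset.univ.image φ).card = Nat.card {x : G // ∃ n ∈ N, x = n * g * n⁻¹} := by
      rw [← Fintype.card_coe, ← Nat.card_eq_fintype_card]
      refine Nat.card_congr (Equiv.subtypeEquivRight fun x => ?_)
      rw [Finset.mem_image]
      constructor
      · rintro ⟨n, _, rfl⟩
        exact ⟨(n : G)⁻¹, N.inv_mem n.2, by rw [inv_inv]⟩
      · rintro ⟨n, hn, rfl⟩
        exact ⟨⟨n⁻¹, N.inv_mem hn⟩, Finset.mem_univ _, by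
          change (n⁻¹)⁻¹ * g * n⁻¹ = _
          rw [inv_inv]⟩
    rw [h2, Finset.card_univ, ← Nat.card_eq_fintype_card] at h1
    calc l ^ r * c ≤ Nat.card {x : G // ∃ n ∈ N, x = n * g * n⁻¹} * c :=
          Nat.mul_le_mul_right _ hr
      _ = c * Nat.card {x : G // ∃ n ∈ N, x = n * g * n⁻¹} := mul_comm _ _
      _ ≤ Nat.card N := h1
  -- for each x few n
  have hx : ∀ x : G, (Finset.univ.filter fun n : N =>
      ((n : G) * x)⁻¹ * g * ((n : G) * x) ∈ H).card ≤ c * l := by
    intro x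
    let Hx : Subgroup G := H.map (MulAut.conj x).toMonoidHom
    have hHx : IsPHyper p Hx :=
      hH.of_injective hp
        ((H.equivMapOfInjective (MulAut.conj x).toMonoidHom (MulEquiv.injective _)).symm.toMonoidHom)
        (MulEquiv.injective _)
    have hmemx : ∀ n : N, ((n : G) * x)⁻¹ * g * ((n : G) * x) ∈ H ↔ φ n ∈ Hx := by
      intro n
      constructor
      · intro h
        refine ⟨_, h, ?_⟩
        change x * (((n : G) * x)⁻¹ * g * ((n : G) * x)) * x⁻¹ = (n : G)⁻¹ * g * n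
        group
      · rintro ⟨h, hh, he⟩
        have he' : x * h * x⁻¹ = (n : G)⁻¹ * g * n := he
        have h2 : ((n : G) * x)⁻¹ * g * ((n : G) * x) = h := by
          have : ((n : G) * x)⁻¹ * g * ((n : G) * x) = x⁻¹ * ((n : G)⁻¹ * g * n) * x := by group
          rw [this, ← he']
          group
        rw [h2]
        exact hh
    have h1 := Finset.card_le_mul_card_image (f := φ)
      (Finset.univ.filter fun n : N => ((n : G) * x)⁻¹ * g * ((n : G) * x) ∈ H) c (by
        intro y hy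
        obtain ⟨n₀, _, rfl⟩ := Finset.mem_image.1 hy
        rw [← hfib n₀]
        exact Finset.card_le_card (Finset.filter_subset_filter _ (Finset.subset_univ _)))
    refine h1.trans (Nat.mul_le_mul_left _ ?_)
    refine le_trans ?_ (card_inter_le N hl hab hexp hind hp Hx hHx g)
    rw [← Fintype.card_coe, ← Nat.card_eq_fintype_card]
    refine Nat.card_le_card_of_injective (fun y => ⟨y.1, ?_⟩) ?_
    · obtain ⟨n, hn, hny⟩ := Finset.mem_image.1 y.2
      rw [Finset.mem_filter] at hn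
      refine ⟨⟨n, n.2, hny.symm⟩, ?_⟩
      rw [← hny]
      exact (hmemx n).1 hn.2
    · intro a b hab'
      exact Subtype.ext (Subtype.mk.inj hab')
  -- double counting
  have hdouble : Nat.card N * Nat.card {x : G // x⁻¹ * g * x ∈ H} ≤ Nat.card G * (c * l) := by
    have h1 : Nat.card N * Nat.card {x : G // x⁻¹ * g * x ∈ H} =
        Nat.card {z : N × G // ((z.1 : G) * z.2)⁻¹ * g * ((z.1 : G) * z.2) ∈ H} := by
      rw [← Nat.card_prod]
      refine Nat.card_congr
        { toFun := fun z => ⟨(z.1, (z.1 : G)⁻¹ * z.2.1), by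
            change ((z.1 : G) * ((z.1 : G)⁻¹ * z.2.1))⁻¹ * g * ((z.1 : G) * ((z.1 : G)⁻¹ * z.2.1)) ∈ H
            rw [mul_inv_cancel_left]
            exact z.2.2⟩
          invFun := fun z => (z.1.1, ⟨(z.1.1 : G) * z.1.2, z.2⟩)
          left_inv := ?_
          right_inv := ?_ }
      · rintro ⟨n, x, hx⟩
        simp
      · rintro ⟨⟨n, x⟩, hx⟩
        simp
    rw [h1, Nat.card_eq_fintype_card, Fintype.card_subtype]
    have h2 : (Finset.univ.filter fun z : N × G =>
        ((z.1 : G) * z.2)⁻¹ * g * ((z.1 : G) * z.2) ∈ H).card =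
        ∑ x : G, (Finset.univ.filter fun n : N =>
          ((n : G) * x)⁻¹ * g * ((n : G) * x) ∈ H).card := by
      simp only [Finset.card_filter]
      rw [Fintype.sum_prod_type_right]
    rw [h2]
    calc ∑ x : G, (Finset.univ.filter fun n : N =>
          ((n : G) * x)⁻¹ * g * ((n : G) * x) ∈ H).card ≤ ∑ _x : G, c * l :=
          Finset.sum_le_sum fun x _ => hx x
      _ = Nat.card G * (c * l) := by
          rw [Finset.sum_const, smul_eq_mul, Finset.card_univ, Nat.card_eq_fintype_card]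
  rw [card_conj_mem] at hdouble
  have hG : Nat.card G = Nat.card H * H.index := (Subgroup.card_mul_index H).symm
  have hHpos : 0 < Nat.card H := Nat.card_pos
  have h1 : (Nat.card H * c) * (l ^ r * Nat.card {x : G ⧸ H // g • x = x}) ≤
      (Nat.card H * c) * (l * H.index) := by
    calc (Nat.card H * c) * (l ^ r * Nat.card {x : G ⧸ H // g • x = x})
        = (l ^ r * c) * (Nat.card H * Nat.card {x : G ⧸ H // g • x = x}) := by ring
      _ ≤ Nat.card N * (Nat.card H * Nat.card {x : G ⧸ H // g • x = x}) :=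
          Nat.mul_le_mul_right _ hcls
      _ ≤ Nat.card G * (c * l) := hdouble
      _ = (Nat.card H * c) * (l * H.index) := by rw [hG]; ring
  exact Nat.le_of_mul_le_mul_left h1 (Nat.mul_pos hHpos hcpos)

end Pool.Agent.MP_0d9be2.H36
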