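import Pool.Agent.Lib.MP_0d9be2_nt.H36.DescentAbs
import Pool.Agent.Lib.MP_0d9be2_nt.H29.Semi

/-!
# Descent of semistable reduction for number fields (d1)
-/

set_option autoImplicit false

open scoped NumberField Pointwise
open IsDedekindDomain

namespace Pool.Agent.MP_0d9be2.H36

open Pool.Agent.MP_0d9be2 Pool.Agent.MP_0d9be2.H29 WithZero

variable {F M : Type} [Field F] [NumberField F] [Field M] [NumberField M] [Algebra F M]

omit [NumberField F] [NumberField M] in
theorem smul_mem_pow (W : Ideal (𝓞 M)) (σ : M ≃ₐ[F] M) (hσ : σ • W = W) (n : ℕ) (x : 𝓞 M) :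
    σ • x ∈ W ^ n ↔ x ∈ W ^ n := by
  have h1 : σ • (W ^ n) = W ^ n := by rw [smul_pow', hσ]
  conv_lhs => rw [← h1]
  exact Ideal.smul_mem_pointwise_smul_iff

omit [NumberField F] in
/-- Elements of the decomposition group preserve the valuation. -/
theorem val_smul (W : HeightOneSpectrum (𝓞 M)) (σ : M ≃ₐ[F] M) (hσ : σ • W.asIdeal = W.asIdeal)
    (x : M) : W.valuation M (σ x) = W.valuation M x := by
  have hint : ∀ x : 𝓞 M, W.intValuation (σ • x) = W.intValuation x := by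
    intro x
    by_cases hx : x = 0
    · rw [hx, smul_zero]
    have hx' : σ • x ≠ 0 := (smul_ne_zero_iff_ne σ).2 hx
    rw [W.intValuation_eq_exp_neg_multiplicity hx, W.intValuation_eq_exp_neg_multiplicity hx']
    congr 3
    apply multiplicity_eq_of_emultiplicity_eq
    refine emultiplicity_eq_emultiplicity_iff.2 fun n => ?_
    rw [Ideal.dvd_span_singleton, Ideal.dvd_span_singleton]
    exact smul_mem_pow W.asIdeal σ hσ n x
  obtain ⟨a, b, hb, rfl⟩ := IsFractionRing.div_surjective (A := 𝓞 M) x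
  have h1 : ∀ a : 𝓞 M, σ (algebraMap (𝓞 M) M a) = algebraMap (𝓞 M) M (σ • a) := fun a => rfl
  rw [map_div₀, h1, h1, map_div₀, map_div₀, HeightOneSpectrum.valuation_of_algebraMap,
    HeightOneSpectrum.valuation_of_algebraMap, HeightOneSpectrum.valuation_of_algebraMap,
    HeightOneSpectrum.valuation_of_algebraMap, hint, hint]

theorem val_le_exp (W : HeightOneSpectrum (𝓞 M)) {x : 𝓞 M} {k : ℕ} (hx : x ∈ W.asIdeal ^ k) :
    W.valuation M (algebraMap (𝓞 M) M x) ≤ exp (-(k : ℤ)) := by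
  rw [HeightOneSpectrum.valuation_of_algebraMap]
  exact (W.intValuation_le_pow_iff_mem x k).2 hx

theorem exists_bound {ι : Type*} [Finite ι] (z : ι → ℤᵐ⁰) {c : ℤᵐ⁰} (hc : c ≠ 0) :
    ∃ k : ℕ, ∀ i, exp (-(k : ℤ)) * z i ≤ c := by
  classical
  have := Fintype.ofFinite ι
  obtain ⟨k, hk⟩ : ∃ k : ℕ, ∀ i, log (z i) - log c ≤ (k : ℤ) := by
    refine ⟨∑ i, (log (z i) - log c).toNat, fun i => ?_⟩
    refine (Int.self_le_toNat _).trans ?_
    exact_mod_cast Finset.single_le_sum (f := fun i => (log (z i) - log c).toNat)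
      (fun _ _ => Nat.zero_le _) (Finset.mem_univ i)
  refine ⟨k, fun i => ?_⟩
  by_cases hz : z i = 0
  · rw [hz, mul_zero]
    exact zero_le
  have h1 := hk i
  rw [← exp_log hz, ← exp_log hc, ← exp_add, exp_le_exp]
  linarith

/-- Approximation. -/
theorem approx [IsGalois F M] (W : HeightOneSpectrum (𝓞 M)) (D : Subgroup (M ≃ₐ[F] M))
    [Fintype D] (hD : ∀ σ, σ ∈ D ↔ σ • W.asIdeal = W.asIdeal) :
    Approx (F := F) (W.valuation M) D := by
  classical
  intro x b hb
  set v := W.valuation M with hv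
  have hvb : v b ≠ 0 := by simpa using hb
  obtain ⟨k, hk⟩ := exists_bound (fun σ : M ≃ₐ[F] M => v (σ x)) hvb
  -- the idempotent-like element
  obtain ⟨e, he⟩ := IsDedekindDomain.exists_forall_sub_mem_ideal
    (s := Finset.univ.image (fun τ : M ≃ₐ[F] M => τ • W.asIdeal)) (id : Ideal (𝓞 M) → Ideal (𝓞 M))
    (fun _ => k) (by
      intro I hI
      obtain ⟨τ, _, rfl⟩ := Finset.mem_image.1 hI
      have h1 : (τ • W.asIdeal) ≠ ⊥ := by
        intro h
        apply W.ne_bot
        rw [← inv_smul_smul τ W.asIdeal, h, Ideal.smul_bot]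
      exact Ideal.prime_of_isPrime h1 (inferInstanceAs ((τ • W.asIdeal).IsPrime)))
    (fun _ _ _ _ h => h) (fun I => if I.1 = W.asIdeal then 1 else 0)
  have he1 : e - 1 ∈ W.asIdeal ^ k := by
    have := he W.asIdeal (Finset.mem_image.2 ⟨1, Finset.mem_univ _, one_smul _ _⟩)
    simpa using this
  have he0 : ∀ τ : M ≃ₐ[F] M, τ • W.asIdeal ≠ W.asIdeal → e ∈ (τ • W.asIdeal) ^ k := by
    intro τ hτ
    have := he (τ • W.asIdeal) (Finset.mem_image.2 ⟨τ, Finset.mem_univ _, rfl⟩)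
    simpa [hτ] using this
  set eM : M := algebraMap (𝓞 M) M e with heM
  refine ⟨Algebra.trace F M (eM * x) / (Fintype.card D : F), ?_⟩
  have hg : (Fintype.card D : M) ≠ 0 := Nat.cast_ne_zero.2 Fintype.card_ne_zero
  have h1 : (Fintype.card D : M) * algebraMap F M (Algebra.trace F M (eM * x) /
      (Fintype.card D : F)) = ∑ σ : M ≃ₐ[F] M, σ (eM * x) := by
    rw [map_div₀, map_natCast, mul_div_cancel₀ _ hg, trace_eq_sum_automorphisms]
  have h2 : ∑ σ : M ≃ₐ[F] M, σ (eM * x) =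
      ∑ σ ∈ Finset.univ.filter (fun σ : M ≃ₐ[F] M => σ ∈ D), σ (eM * x) +
      ∑ σ ∈ Finset.univ.filter (fun σ : M ≃ₐ[F] M => ¬ σ ∈ D), σ (eM * x) :=
    (Finset.sum_filter_add_sum_filter_not _ _ _).symm
  have h3 : ∑ σ : D, (σ : M ≃ₐ[F] M) x =
      ∑ σ ∈ Finset.univ.filter (fun σ : M ≃ₐ[F] M => σ ∈ D), σ x :=
    Finset.sum_subtype (Finset.univ.filter (fun σ : M ≃ₐ[F] M => σ ∈ D)) (by simp)
      (fun σ => σ x) |>.symm
  have hcoe : ∀ (σ : M ≃ₐ[F] M) (y : 𝓞 M), σ (algebraMap (𝓞 M) M y) =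
      algebraMap (𝓞 M) M (σ • y) := fun σ y => rfl
  rw [h1, h2, h3, add_sub_right_comm, ← Finset.sum_sub_distrib]
  refine Valuation.map_add_le v (Valuation.map_sum_le v ?_) (Valuation.map_sum_le v ?_)
  · intro σ hσ
    have hσD : σ • W.asIdeal = W.asIdeal := (hD σ).1 (Finset.mem_filter.1 hσ).2
    have h4 : σ (eM * x) - σ x = σ (algebraMap (𝓞 M) M (e - 1)) * σ x := by
      rw [← map_sub, ← map_mul, map_sub (algebraMap (𝓞 M) M), map_one, ← heM]
      congr 1
      ring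
    rw [h4, map_mul, hv, val_smul W σ hσD]
    refine le_trans ?_ (hk σ)
    exact mul_le_mul_left (val_le_exp W he1) _
  · intro σ hσ
    have hσD : σ ∉ D := (Finset.mem_filter.1 hσ).2
    have hσD' : σ⁻¹ • W.asIdeal ≠ W.asIdeal := by
      intro h
      apply hσD
      rw [hD]
      conv_lhs => rw [← h]
      rw [smul_inv_smul]
    have h4 := he0 σ⁻¹ hσD'
    have h5 : σ • e ∈ W.asIdeal ^ k := by
      have h6 := Ideal.smul_mem_pointwise_smul σ e _ h4
      rw [smul_pow', smul_inv_smul] at h6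
      exact h6
    rw [map_mul, map_mul, heM, hcoe]
    refine le_trans ?_ (hk σ)
    exact mul_le_mul_left (val_le_exp W h5) _

/-- Integrality and units of `F` can be tested at a prime above. -/
theorem val_le_one_iff (w : HeightOneSpectrum (𝓞 F)) (W : HeightOneSpectrum (𝓞 M))
    (hW : W.asIdeal.LiesOver w.asIdeal) (x : F) :
    (W.valuation M (algebraMap F M x) ≤ 1 ↔ w.valuation F x ≤ 1) ∧
      (W.valuation M (algebraMap F M x) = 1 ↔ w.valuation F x = 1) := by
  have h1 := HeightOneSpectrum.valuation_liesOver M w W x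
  have h2 : w.asIdeal.ramificationIdx' W.asIdeal ≠ 0 :=
    Ideal.IsDedekindDomain.ramificationIdx'_ne_zero_of_liesOver W.asIdeal w.ne_bot
  rw [← h1]
  exact ⟨pow_le_one_iff_of_nonneg zero_le h2, pow_eq_one_iff_of_nonneg zero_le h2⟩

/-- **Descent (d1)**: semistable reduction descends through a decomposition group which is a
`p`-group, `p ≥ 5`. -/
theorem semistable_descent [IsGalois F M] (E : WeierstrassCurve F) [E.IsElliptic]
    (w : HeightOneSpectrum (𝓞 F)) (W : HeightOneSpectrum (𝓞 M))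
    (hW : W.asIdeal.LiesOver w.asIdeal) {p : ℕ} (hp : p.Prime) (hp5 : 5 ≤ p)
    (hG : ∃ k, Nat.card (MulAction.stabilizer (M ≃ₐ[F] M) W.asIdeal) = p ^ k)
    (hss : SemistableAt (E.map (algebraMap F M)) W) : SemistableAt E w := by
  classical
  obtain ⟨k, hk⟩ := hG
  have := Fintype.ofFinite (MulAction.stabilizer (M ≃ₐ[F] M) W.asIdeal)
  have hcard : Fintype.card (MulAction.stabilizer (M ≃ₐ[F] M) W.asIdeal) = p ^ k := by
    rw [← Nat.card_eq_fintype_card]
    exact hk
  have hcop : Nat.Coprime p 12 := by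
    rw [Nat.Prime.coprime_iff_not_dvd hp]
    intro h
    have h12 : p ∣ 2 ^ 2 * 3 := h
    rcases (Nat.Prime.dvd_mul hp).1 h12 with h1 | h1
    · have := Nat.le_of_dvd (by norm_num) (hp.dvd_of_dvd_pow h1)
      omega
    · have := Nat.le_of_dvd (by norm_num) h1
      omega
  set v := W.valuation M with hv
  have hone : ∀ n : ℕ, (n : 𝓞 M) ∉ W.asIdeal → v (n : M) = 1 := by
    intro n hn
    have h1 := (HeightOneSpectrum.valuation_eq_one_iff_notMem (K := M) W).2 hn
    rwa [map_natCast] at h1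
  have hcopr : ∀ a b : ℕ, Nat.Coprime a b → (a : 𝓞 M) ∈ W.asIdeal → (b : 𝓞 M) ∉ W.asIdeal := by
    intro a b hab ha hb
    apply W.isPrime.ne_top
    rw [Ideal.eq_top_iff_one]
    have h1 := Nat.gcd_eq_gcd_ab a b
    rw [hab] at h1
    have h2 : (1 : 𝓞 M) = (a : 𝓞 M) * ((Nat.gcdA a b : ℤ) : 𝓞 M) +
        (b : 𝓞 M) * ((Nat.gcdB a b : ℤ) : 𝓞 M) := by
      have := congrArg (fun z : ℤ => (z : 𝓞 M)) h1
      push_cast at this
      exact this
    rw [h2]
    exact Ideal.add_mem _ (Ideal.mul_mem_right _ _ ha) (Ideal.mul_mem_right _ _ hb)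
  have hunit : v (Fintype.card (MulAction.stabilizer (M ≃ₐ[F] M) W.asIdeal) : M) = 1 ∨
      (v (2 : M) = 1 ∧ v (3 : M) = 1) := by
    by_cases hpW : (p : 𝓞 M) ∈ W.asIdeal
    · right
      have h2 : Nat.Coprime p 2 := Nat.Coprime.coprime_dvd_right (by norm_num) hcop
      have h3 : Nat.Coprime p 3 := Nat.Coprime.coprime_dvd_right (by norm_num) hcop
      exact ⟨by exact_mod_cast hone 2 (hcopr p 2 h2 hpW),
        by exact_mod_cast hone 3 (hcopr p 3 h3 hpW)⟩
    · left
      rw [hcard]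
      push_cast
      rw [map_pow, hone p hpW, one_pow]
  -- a local model over M
  obtain ⟨W₀, ⟨C, hC⟩, hW₀⟩ := hss
  have hmodel : C⁻¹ • E.map (algebraMap F M) = W₀.map (algebraMap (𝓞 M) M) := by
    rw [← hC, inv_smul_smul]
  have hloc : LocSemi v (C⁻¹ • E.map (algebraMap F M)) := by
    rw [hmodel]
    refine ⟨⟨?_, ?_, ?_, ?_, ?_⟩, ?_⟩
    · exact W.valuation_le_one _
    · exact W.valuation_le_one _
    · exact W.valuation_le_one _
    · exact W.valuation_le_one _
    · exact W.valuation_le_one _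
    · rw [WeierstrassCurve.map_Δ, WeierstrassCurve.map_c₄]
      rcases hW₀ with h | h
      · exact Or.inl ((HeightOneSpectrum.valuation_eq_one_iff_notMem (K := M) W).2 h)
      · exact Or.inr ((HeightOneSpectrum.valuation_eq_one_iff_notMem (K := M) W).2 h)
  have hc : ∃ c : M, c ≠ 0 ∧ v c < 1 := by
    obtain ⟨c, hcW, hc0⟩ := Submodule.exists_mem_ne_zero_of_ne_bot W.ne_bot
    refine ⟨algebraMap (𝓞 M) M c, by simpa using hc0, ?_⟩
    exact (HeightOneSpectrum.valuation_lt_one_iff_mem (K := M) W c).2 hcW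
  obtain ⟨C', hC'⟩ := descend (v := v) (D := MulAction.stabilizer (M ≃ₐ[F] M) W.asIdeal)
    (fun σ hσ x => val_smul W σ hσ x) (approx W _ (fun σ => MulAction.mem_stabilizer_iff)) hc
    (by rw [hcard]; exact Nat.Coprime.pow_left k hcop) hunit E C⁻¹ hloc
  obtain ⟨⟨h1, h2, h3, h4, h6⟩, hΔ⟩ := hC'
  refine semi_of_val E w C' ?_ ?_ ?_ ?_ ?_ ?_
  · exact (val_le_one_iff w W hW _).1.1 h1
  · exact (val_le_one_iff w W hW _).1.1 h2
  · exact (val_le_one_iff w W hW _).1.1 h3
  · exact (val_le_one_iff w W hW _).1.1 h4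
  · exact (val_le_one_iff w W hW _).1.1 h6
  · rw [WeierstrassCurve.map_Δ, WeierstrassCurve.map_c₄] at hΔ
    rcases hΔ with h | h
    · exact Or.inl ((val_le_one_iff w W hW _).2.1 h)
    · exact Or.inr ((val_le_one_iff w W hW _).2.1 h)

end Pool.Agent.MP_0d9be2.H36
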