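import Pool.Agent.Lib.MP_0d9be2_nt.Defs
import Pool.Agent.Lib.MP_0d9be2_nt.H29.Change

/-!
# Descent of semistable models, abstract form
-/

set_option autoImplicit false

namespace Pool.Agent.MP_0d9be2.H36

open WeierstrassCurve

/-- `W` is integral at `v` and has unit discriminant or unit `c₄`. -/
def LocSemi {M : Type*} [Field M] {Γ : Type*} [LinearOrderedCommGroupWithZero Γ]
    (v : Valuation M Γ) (W : WeierstrassCurve M) : Prop :=
  (v W.a₁ ≤ 1 ∧ v W.a₂ ≤ 1 ∧ v W.a₃ ≤ 1 ∧ v W.a₄ ≤ 1 ∧ v W.a₆ ≤ 1) ∧ (v W.Δ = 1 ∨ v W.c₄ = 1)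

section one

variable {M : Type*} [Field M] {Γ : Type*} [LinearOrderedCommGroupWithZero Γ] (v : Valuation M Γ)

/-- integrality as a subring -/
theorem int_add {x y : M} (hx : v x ≤ 1) (hy : v y ≤ 1) : v (x + y) ≤ 1 := v.integer.add_mem hx hy
theorem int_sub {x y : M} (hx : v x ≤ 1) (hy : v y ≤ 1) : v (x - y) ≤ 1 := v.integer.sub_mem hx hy
theorem int_neg {x : M} (hx : v x ≤ 1) : v (-x) ≤ 1 := v.integer.neg_mem hx
theorem int_mul {x y : M} (hx : v x ≤ 1) (hy : v y ≤ 1) : v (x * y) ≤ 1 := v.integer.mul_mem hx hy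
theorem int_pow {x : M} (hx : v x ≤ 1) (n : ℕ) : v (x ^ n) ≤ 1 := v.integer.pow_mem hx n
theorem int_nat (n : ℕ) : v (n : M) ≤ 1 := natCast_mem v.integer n
theorem int_ofNat (n : ℕ) [n.AtLeastTwo] : v (OfNat.ofNat n : M) ≤ 1 := ofNat_mem v.integer n

/-- A variable change with `u = 1` between integral curves is integral. -/
theorem int_change {W W' : WeierstrassCurve M} {ρ ς θ : M}
    (h : (⟨1, ρ, ς, θ⟩ : VariableChange M) • W = W')
    (h1 : v W.a₁ ≤ 1) (h2 : v W.a₂ ≤ 1) (h3 : v W.a₃ ≤ 1) (h4 : v W.a₄ ≤ 1) (h6 : v W.a₆ ≤ 1)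
    (h1' : v W'.a₁ ≤ 1) (h2' : v W'.a₂ ≤ 1) (h3' : v W'.a₃ ≤ 1) (h4' : v W'.a₄ ≤ 1)
    (h6' : v W'.a₆ ≤ 1) : v ρ ≤ 1 ∧ v ς ≤ 1 ∧ v θ ≤ 1 := by
  have i2 : v (2 : M) ≤ 1 := int_ofNat v 2
  have i3 : v (3 : M) ≤ 1 := int_ofNat v 3
  have i4 : v (4 : M) ≤ 1 := int_ofNat v 4
  have hb : ∀ W : WeierstrassCurve M, v W.a₁ ≤ 1 → v W.a₂ ≤ 1 → v W.a₃ ≤ 1 → v W.a₄ ≤ 1 →
      v W.a₆ ≤ 1 → v W.b₄ ≤ 1 ∧ v W.b₆ ≤ 1 ∧ v W.b₈ ≤ 1 := by
    intro W h1 h2 h3 h4 h6
    refine ⟨?_, ?_, ?_⟩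
    · rw [b₄]
      exact int_add v (int_mul v i2 h4) (int_mul v h1 h3)
    · rw [b₆]
      exact int_add v (int_pow v h3 2) (int_mul v i4 h6)
    · rw [b₈]
      exact int_sub v (int_add v (int_sub v (int_add v (int_mul v (int_pow v h1 2) h6)
        (int_mul v (int_mul v i4 h2) h6)) (int_mul v (int_mul v h1 h3) h4))
        (int_mul v h2 (int_pow v h3 2))) (int_pow v h4 2)
  obtain ⟨hb4, hb6, hb8⟩ := hb W h1 h2 h3 h4 h6
  obtain ⟨hb4', hb6', hb8'⟩ := hb W' h1' h2' h3' h4' h6'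
  have e6 : W'.b₆ = W.b₆ + 2 * ρ * W.b₄ + ρ ^ 2 * W.b₂ + 4 * ρ ^ 3 := by
    rw [← h, variableChange_b₆]
    simp
  have e8 : W'.b₈ = W.b₈ + 3 * ρ * W.b₆ + 3 * ρ ^ 2 * W.b₄ + ρ ^ 3 * W.b₂ + 3 * ρ ^ 4 := by
    rw [← h, variableChange_b₈]
    simp
  have hρ : v ρ ≤ 1 := by
    refine H29.val_quartic v (a := W.b₄) (b := 2 * W.b₆ + W'.b₆) (c := W.b₈ - W'.b₈) hb4
      (int_add v (int_mul v i2 hb6) hb6') (int_sub v hb8 hb8') ?_
    rw [e6, e8]
    ring
  have e2 : W'.a₂ = W.a₂ - ς * W.a₁ + 3 * ρ - ς ^ 2 := by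
    rw [← h, variableChange_a₂]
    simp
  have hς : v ς ≤ 1 := by
    refine H29.val_quadratic v (a := -W.a₁) (b := W.a₂ - W'.a₂ + 3 * ρ) (int_neg v h1)
      (int_add v (int_sub v h2 h2') (int_mul v i3 hρ)) ?_
    rw [e2]
    ring
  have e6' : W'.a₆ = W.a₆ + ρ * W.a₄ + ρ ^ 2 * W.a₂ + ρ ^ 3 - θ * W.a₃ - θ ^ 2
      - ρ * θ * W.a₁ := by
    rw [← h, variableChange_a₆]
    simp
  refine ⟨hρ, hς, ?_⟩
  refine H29.val_quadratic v (a := -(W.a₃ + ρ * W.a₁))
    (b := W.a₆ - W'.a₆ + ρ * W.a₄ + ρ ^ 2 * W.a₂ + ρ ^ 3)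
    (int_neg v (int_add v h3 (int_mul v hρ h1)))
    (int_add v (int_add v (int_add v (int_sub v h6 h6') (int_mul v hρ h4))
      (int_mul v (int_pow v hρ 2) h2)) (int_pow v hρ 3)) ?_
  rw [e6']
  ring

/-- An integral variable change with unit `u` preserves `LocSemi`. -/
theorem LocSemi.smul {W : WeierstrassCurve M} (h : LocSemi v W) (C : VariableChange M)
    (hu : v (C.u : M) = 1) (hr : v C.r ≤ 1) (hs : v C.s ≤ 1) (ht : v C.t ≤ 1) :
    LocSemi v (C • W) := by
  obtain ⟨⟨h1, h2, h3, h4, h6⟩, hΔ⟩ := h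
  have i2 : v (2 : M) ≤ 1 := int_ofNat v 2
  have i3 : v (3 : M) ≤ 1 := int_ofNat v 3
  have huinv : v ((C.u⁻¹ : Mˣ) : M) = 1 := by
    rw [Units.val_inv_eq_inv_val, map_inv₀, hu, inv_one]
  have hui : ∀ n : ℕ, v (((C.u⁻¹ : Mˣ) : M) ^ n) ≤ 1 := fun n => int_pow v huinv.le n
  refine ⟨⟨?_, ?_, ?_, ?_, ?_⟩, ?_⟩
  · rw [variableChange_a₁]
    exact int_mul v huinv.le (int_add v h1 (int_mul v i2 hs))
  · rw [variableChange_a₂]
    exact int_mul v (hui 2) (int_sub v (int_add v (int_sub v h2 (int_mul v hs h1))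
      (int_mul v i3 hr)) (int_pow v hs 2))
  · rw [variableChange_a₃]
    exact int_mul v (hui 3) (int_add v (int_add v h3 (int_mul v hr h1)) (int_mul v i2 ht))
  · rw [variableChange_a₄]
    exact int_mul v (hui 4) (int_sub v (int_add v (int_sub v (int_add v (int_sub v h4
      (int_mul v hs h3)) (int_mul v (int_mul v i2 hr) h2)) (int_mul v (int_add v ht
      (int_mul v hr hs)) h1)) (int_mul v i3 (int_pow v hr 2))) (int_mul v (int_mul v i2 hs) ht))
  · rw [variableChange_a₆]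
    exact int_mul v (hui 6) (int_sub v (int_sub v (int_sub v (int_add v (int_add v (int_add v h6
      (int_mul v hr h4)) (int_mul v (int_pow v hr 2) h2)) (int_pow v hr 3)) (int_mul v ht h3))
      (int_pow v ht 2)) (int_mul v (int_mul v hr ht) h1))
  · rw [variableChange_Δ, variableChange_c₄, map_mul, map_mul, map_pow, map_pow, huinv, one_pow,
      one_pow, one_mul, one_mul]
    exact hΔ

end one

section two

variable {F M : Type*} [Field F] [Field M] [CharZero F] [Algebra F M] {Γ : Type*}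
  [LinearOrderedCommGroupWithZero Γ] (v : Valuation M Γ) (D : Subgroup (M ≃ₐ[F] M)) [Fintype D]

/-- Approximation of averages over `D` by elements of the ground field. -/
def Approx : Prop := ∀ x b : M, b ≠ 0 → ∃ y : F,
  v ((Fintype.card D : M) * algebraMap F M y - ∑ σ : D, (σ : M ≃ₐ[F] M) x) ≤ v b

variable {v D}

omit [CharZero F] in
theorem avg (hA : Approx v D) (hg : v (Fintype.card D : M) = 1) {x : M}
    (hx : ∀ σ ∈ D, v (σ x - x) ≤ 1) : ∃ y : F, v (algebraMap F M y - x) ≤ 1 := by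
  obtain ⟨y, hy⟩ := hA x 1 one_ne_zero
  rw [map_one] at hy
  refine ⟨y, ?_⟩
  have h1 : (Fintype.card D : M) * (algebraMap F M y - x) =
      ((Fintype.card D : M) * algebraMap F M y - ∑ σ : D, (σ : M ≃ₐ[F] M) x) +
        ∑ σ : D, ((σ : M ≃ₐ[F] M) x - x) := by
    rw [Finset.sum_sub_distrib, Finset.sum_const, Finset.card_univ, nsmul_eq_mul]
    ring
  have h2 : v (∑ σ : D, ((σ : M ≃ₐ[F] M) x - x)) ≤ 1 :=
    v.integer.sum_mem fun σ _ => hx σ.1 σ.2
  have h3 : v ((Fintype.card D : M) * (algebraMap F M y - x)) ≤ 1 := by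
    rw [h1]
    exact int_add v hy h2
  rw [map_mul, hg, one_mul] at h3
  exact h3

theorem val_desc (hA : Approx v D) (hc : ∃ c : M, c ≠ 0 ∧ v c < 1) {x : M} (hx0 : x ≠ 0)
    (hx : ∀ σ ∈ D, σ x = x) : ∃ y : F, v (algebraMap F M y) = v x := by
  have : CharZero M := charZero_of_injective_algebraMap (algebraMap F M).injective
  obtain ⟨c, hc0, hc1⟩ := hc
  have hg0 : (Fintype.card D : M) ≠ 0 := Nat.cast_ne_zero.2 Fintype.card_ne_zero
  obtain ⟨y, hy⟩ := hA x ((Fintype.card D : M) * x * c)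
    (mul_ne_zero (mul_ne_zero hg0 hx0) hc0)
  refine ⟨y, ?_⟩
  have h1 : ∑ σ : D, (σ : M ≃ₐ[F] M) x = (Fintype.card D : M) * x := by
    rw [Finset.sum_congr rfl (fun σ _ => hx σ.1 σ.2), Finset.sum_const, Finset.card_univ,
      nsmul_eq_mul]
  rw [h1, ← mul_sub, map_mul, mul_assoc, map_mul v (Fintype.card D : M)] at hy
  have hgpos : 0 < v (Fintype.card D : M) := (Valuation.pos_iff _).2 hg0
  have h2 : v (algebraMap F M y - x) ≤ v (x * c) := le_of_mul_le_mul_left hy hgpos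
  have h3 : v (algebraMap F M y - x) < v x := by
    refine h2.trans_lt ?_
    rw [map_mul]
    have hx0' : 0 < v x := (Valuation.pos_iff _).2 hx0
    calc v x * v c < v x * 1 := mul_lt_mul_of_pos_left hc1 hx0'
      _ = v x := mul_one _
  exact Valuation.map_eq_of_sub_lt v h3

theorem u_desc (hD : ∀ σ ∈ D, ∀ x, v (σ x) = v x) (hA : Approx v D)
    (hc : ∃ c : M, c ≠ 0 ∧ v c < 1) (hg : Nat.Coprime (Fintype.card D) 12) {u : M} (hu : u ≠ 0)
    {δ : F} (hδ : δ ≠ 0) (h : v u ^ 12 = v (algebraMap F M δ)) :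
    ∃ π : F, π ≠ 0 ∧ v (algebraMap F M π) = v u := by
  set N : M := ∏ σ : D, (σ : M ≃ₐ[F] M) u with hN
  have hN0 : N ≠ 0 := by
    rw [hN, Finset.prod_ne_zero_iff]
    intro σ _
    simpa using hu
  have hNfix : ∀ τ ∈ D, τ N = N := by
    intro τ hτ
    rw [hN, map_prod]
    exact Fintype.prod_equiv (Equiv.mulLeft (⟨τ, hτ⟩ : D)) _ _ (fun σ => rfl)
  have hNv : v N = v u ^ Fintype.card D := by
    rw [hN, map_prod, Finset.prod_congr rfl (fun σ _ => hD σ.1 σ.2 u), Finset.prod_const,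
      Finset.card_univ]
  have hδ0 : algebraMap F M δ ≠ 0 := by simpa using hδ
  have hab := Nat.gcd_eq_gcd_ab (Fintype.card D) 12
  rw [hg] at hab
  set a := Nat.gcdA (Fintype.card D) 12
  set b := Nat.gcdB (Fintype.card D) 12
  obtain ⟨π, hπ⟩ := val_desc hA hc (x := N ^ a * (algebraMap F M δ) ^ b)
    (mul_ne_zero (zpow_ne_zero _ hN0) (zpow_ne_zero _ hδ0)) (by
      intro σ hσ
      rw [map_mul, map_zpow₀, map_zpow₀, hNfix σ hσ, AlgEquiv.commutes])
  have hvu0 : v u ≠ 0 := by simpa using hu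
  have h1 : v (algebraMap F M π) = v u := by
    rw [hπ, map_mul, map_zpow₀, map_zpow₀, hNv, ← h, ← zpow_natCast, ← zpow_natCast,
      ← zpow_mul, ← zpow_mul, ← zpow_add₀ hvu0]
    push_cast at hab ⊢
    rw [← hab, zpow_one]
  refine ⟨π, ?_, h1⟩
  rintro rfl
  rw [map_zero, map_zero] at h1
  exact hvu0 h1.symm

/-- The averaging argument when the order of `D` is a unit. -/
theorem descend_unit (hD : ∀ σ ∈ D, ∀ x, v (σ x) = v x) (hA : Approx v D)
    (hg1 : v (Fintype.card D : M) = 1) (W₁ : WeierstrassCurve F) {r s t : M}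
    (h : LocSemi v ((⟨1, r, s, t⟩ : VariableChange M) • W₁.map (algebraMap F M))) :
    ∃ C : VariableChange F, LocSemi v ((C • W₁).map (algebraMap F M)) := by
  set WM := W₁.map (algebraMap F M) with hWM
  set W₂ := (⟨1, r, s, t⟩ : VariableChange M) • WM with hW₂
  obtain ⟨⟨h1, h2, h3, h4, h6⟩, hΔ⟩ := h
  -- the conjugates
  have hσ : ∀ σ ∈ D, v (σ r - r) ≤ 1 ∧ v (σ s - s) ≤ 1 ∧ v (σ t - t - (σ r - r) * s) ≤ 1 := by
    intro σ hσD
    have e1 : (⟨1, σ r, σ s, σ t⟩ : VariableChange M) =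
        (⟨1, σ r - r, σ s - s, σ t - t - (σ r - r) * s⟩ : VariableChange M) * ⟨1, r, s, t⟩ := by
      rw [VariableChange.mul_def]
      ext <;> simp
    have e2 : W₂.map (σ : M →+* M) = (⟨1, σ r, σ s, σ t⟩ : VariableChange M) • WM := by
      have e3 : WM.map (σ : M →+* M) = WM := by
        rw [hWM, WeierstrassCurve.map_map]
        congr 1
        ext x
        exact σ.commutes x
      conv_rhs => rw [← e3]
      rw [hW₂, ← map_variableChange]
      congr 1
      ext <;> simp [VariableChange.map]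
    have e4 : (⟨1, σ r - r, σ s - s, σ t - t - (σ r - r) * s⟩ : VariableChange M) • W₂ =
        W₂.map (σ : M →+* M) := by
      rw [e2, e1, mul_smul]
    refine int_change v e4 h1 h2 h3 h4 h6 ?_ ?_ ?_ ?_ ?_
    · exact (hD σ hσD _).le.trans h1
    · exact (hD σ hσD _).le.trans h2
    · exact (hD σ hσD _).le.trans h3
    · exact (hD σ hσD _).le.trans h4
    · exact (hD σ hσD _).le.trans h6
  obtain ⟨r', hr'⟩ := avg hA hg1 (x := r) (fun σ h => (hσ σ h).1)
  obtain ⟨s', hs'⟩ := avg hA hg1 (x := s) (fun σ h => (hσ σ h).2.1)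
  obtain ⟨t', ht'⟩ := avg hA hg1 (x := t + (algebraMap F M r' - r) * s) (by
    intro σ h
    obtain ⟨a1, a2, a3⟩ := hσ σ h
    have e1 : σ (t + (algebraMap F M r' - r) * s) - (t + (algebraMap F M r' - r) * s) =
        (σ t - t - (σ r - r) * s) + ((algebraMap F M r' - r) - (σ r - r)) * (σ s - s) := by
      rw [map_add, map_mul, map_sub, AlgEquiv.commutes]
      ring
    rw [e1]
    exact int_add v a3 (int_mul v (int_sub v hr' a1) a2))
  refine ⟨⟨1, r', s', t'⟩, ?_⟩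
  rw [← map_variableChange]
  have e1 : (⟨1, r', s', t'⟩ : VariableChange F).map (algebraMap F M) =
      (⟨1, algebraMap F M r' - r, algebraMap F M s' - s,
        algebraMap F M t' - (t + (algebraMap F M r' - r) * s)⟩ : VariableChange M) *
      ⟨1, r, s, t⟩ := by
    rw [VariableChange.mul_def]
    ext
    · simp [VariableChange.map]
    · simp [VariableChange.map]
    · simp [VariableChange.map]
    · simp only [VariableChange.map, Units.val_one, one_pow, mul_one]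
      ring
  rw [e1, mul_smul]
  exact LocSemi.smul v ⟨⟨h1, h2, h3, h4, h6⟩, hΔ⟩ _ (by simp) hr' hs' ht'

theorem int_c₄ {W : WeierstrassCurve M}
    (h : v W.a₁ ≤ 1 ∧ v W.a₂ ≤ 1 ∧ v W.a₃ ≤ 1 ∧ v W.a₄ ≤ 1 ∧ v W.a₆ ≤ 1) :
    v W.c₄ ≤ 1 ∧ v W.c₆ ≤ 1 := by
  obtain ⟨h1, h2, h3, h4, h6⟩ := h
  have b2 : v W.b₂ ≤ 1 := by
    rw [b₂]
    exact int_add v (int_pow v h1 2) (int_mul v (int_ofNat v 4) h2)
  have b4 : v W.b₄ ≤ 1 := by
    rw [b₄]
    exact int_add v (int_mul v (int_ofNat v 2) h4) (int_mul v h1 h3)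
  have b6 : v W.b₆ ≤ 1 := by
    rw [b₆]
    exact int_add v (int_pow v h3 2) (int_mul v (int_ofNat v 4) h6)
  constructor
  · rw [c₄]
    exact int_sub v (int_pow v b2 2) (int_mul v (int_ofNat v 24) b4)
  · rw [c₆]
    exact int_sub v (int_add v (int_neg v (int_pow v b2 3)) (int_mul v (int_mul v
      (int_ofNat v 36) b2) b4)) (int_mul v (int_ofNat v 216) b6)

theorem val_smul_c₄ (W : WeierstrassCurve M) (C : VariableChange M) :
    v (C • W).c₄ * v (C.u : M) ^ 4 = v W.c₄ := by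
  rw [variableChange_c₄, map_mul, map_pow, Units.val_inv_eq_inv_val, map_inv₀, mul_right_comm,
    inv_pow, inv_mul_cancel₀ (by simp), one_mul]

theorem val_smul_c₆ (W : WeierstrassCurve M) (C : VariableChange M) :
    v (C • W).c₆ * v (C.u : M) ^ 6 = v W.c₆ := by
  rw [variableChange_c₆, map_mul, map_pow, Units.val_inv_eq_inv_val, map_inv₀, mul_right_comm,
    inv_pow, inv_mul_cancel₀ (by simp), one_mul]

theorem val_smul_Δ (W : WeierstrassCurve M) (C : VariableChange M) :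
    v (C • W).Δ * v (C.u : M) ^ 12 = v W.Δ := by
  rw [variableChange_Δ, map_mul, map_pow, Units.val_inv_eq_inv_val, map_inv₀, mul_right_comm,
    inv_pow, inv_mul_cancel₀ (by simp), one_mul]

/-- The short Weierstrass argument when `6` is a unit. -/
theorem descend_short (h2 : v (2 : M) = 1) (h3 : v (3 : M) = 1)
    (W₁ : WeierstrassCurve F) (C : VariableChange M)
    (h : LocSemi v (C • W₁.map (algebraMap F M))) {π : F} (hπ0 : π ≠ 0)
    (hπ : v (algebraMap F M π) = v (C.u : M)) :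
    ∃ C : VariableChange F, LocSemi v ((C • W₁).map (algebraMap F M)) := by
  have i2 : Invertible (2 : F) := invertibleOfNonzero two_ne_zero
  have i3 : Invertible (3 : F) := invertibleOfNonzero three_ne_zero
  set V := W₁.toShortNF • W₁ with hV
  have hu1 : W₁.toShortNF.u = 1 := by
    simp [WeierstrassCurve.toShortNF, WeierstrassCurve.toCharNeTwoNF, VariableChange.mul_def]
  have hVs : V.IsShortNF := W₁.toShortNF_spec
  let P : VariableChange F := ⟨Units.mk0 π hπ0, 0, 0, 0⟩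
  refine ⟨P * W₁.toShortNF, ?_⟩
  rw [mul_smul, ← hV]
  have hvu0 : v (C.u : M) ≠ 0 := by simp
  -- the invariants of the new curve
  have hPu : v (((P.map (algebraMap F M)).u : Mˣ) : M) = v (C.u : M) := by
    rw [← hπ]
    rfl
  have hVM : (P • V).map (algebraMap F M) = P.map (algebraMap F M) • V.map (algebraMap F M) :=
    (map_variableChange _ _ _).symm
  have e4 : v (V.map (algebraMap F M)).c₄ = v (W₁.map (algebraMap F M)).c₄ := by
    rw [hV, ← map_variableChange, variableChange_c₄]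
    simp [VariableChange.map, hu1]
  have e6 : v (V.map (algebraMap F M)).c₆ = v (W₁.map (algebraMap F M)).c₆ := by
    rw [hV, ← map_variableChange, variableChange_c₆]
    simp [VariableChange.map, hu1]
  have eΔ : v (V.map (algebraMap F M)).Δ = v (W₁.map (algebraMap F M)).Δ := by
    rw [hV, ← map_variableChange, variableChange_Δ]
    simp [VariableChange.map, hu1]
  have hcmp4 : v ((P • V).map (algebraMap F M)).c₄ = v (C • W₁.map (algebraMap F M)).c₄ := by
    have h5 := val_smul_c₄ (v := v) (V.map (algebraMap F M)) (P.map (algebraMap F M))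
    have h6 := val_smul_c₄ (v := v) (W₁.map (algebraMap F M)) C
    rw [e4, ← h6, hPu] at h5
    rw [hVM]
    exact mul_right_cancel₀ (pow_ne_zero 4 hvu0) h5
  have hcmp6 : v ((P • V).map (algebraMap F M)).c₆ = v (C • W₁.map (algebraMap F M)).c₆ := by
    have h5 := val_smul_c₆ (v := v) (V.map (algebraMap F M)) (P.map (algebraMap F M))
    have h6 := val_smul_c₆ (v := v) (W₁.map (algebraMap F M)) C
    rw [e6, ← h6, hPu] at h5
    rw [hVM]
    exact mul_right_cancel₀ (pow_ne_zero 6 hvu0) h5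
  have hcmpΔ : v ((P • V).map (algebraMap F M)).Δ = v (C • W₁.map (algebraMap F M)).Δ := by
    have h5 := val_smul_Δ (v := v) (V.map (algebraMap F M)) (P.map (algebraMap F M))
    have h6 := val_smul_Δ (v := v) (W₁.map (algebraMap F M)) C
    rw [eΔ, ← h6, hPu] at h5
    rw [hVM]
    exact mul_right_cancel₀ (pow_ne_zero 12 hvu0) h5
  -- the new curve is short
  have hS : (P • V).IsShortNF := by
    constructor
    · rw [variableChange_a₁, V.a₁_of_isShortNF]
      simp [P]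
    · rw [variableChange_a₂, V.a₂_of_isShortNF, V.a₁_of_isShortNF]
      simp [P]
    · rw [variableChange_a₃, V.a₃_of_isShortNF, V.a₁_of_isShortNF]
      simp [P]
  obtain ⟨hi4, hi6⟩ := int_c₄ h.1
  rw [← hcmp4] at hi4
  rw [← hcmp6] at hi6
  have v48 : v (48 : M) = 1 := by
    have : (48 : M) = 2 ^ 4 * 3 := by norm_num
    rw [this, map_mul, map_pow, h2, h3, one_pow, one_mul]
  have v864 : v (864 : M) = 1 := by
    have : (864 : M) = 2 ^ 5 * 3 ^ 3 := by norm_num
    rw [this, map_mul, map_pow, map_pow, h2, h3, one_pow, one_pow, one_mul]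
  rw [map_c₄, c₄_of_isShortNF, map_mul, map_neg, map_ofNat, map_mul, Valuation.map_neg, v48,
    one_mul] at hi4
  rw [map_c₆, c₆_of_isShortNF, map_mul, map_neg, map_ofNat, map_mul, Valuation.map_neg, v864,
    one_mul] at hi6
  refine ⟨⟨?_, ?_, ?_, hi4, hi6⟩, ?_⟩
  · rw [map_a₁, a₁_of_isShortNF, map_zero, map_zero]
    exact zero_le
  · rw [map_a₂, a₂_of_isShortNF, map_zero, map_zero]
    exact zero_le
  · rw [map_a₃, a₃_of_isShortNF, map_zero, map_zero]
    exact zero_le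
  · rw [hcmpΔ, hcmp4]
    exact h.2

/-- Descent of semistable models. -/
theorem descend (hD : ∀ σ ∈ D, ∀ x, v (σ x) = v x) (hA : Approx v D)
    (hc : ∃ c : M, c ≠ 0 ∧ v c < 1) (hg : Nat.Coprime (Fintype.card D) 12)
    (hunit : v (Fintype.card D : M) = 1 ∨ (v (2 : M) = 1 ∧ v (3 : M) = 1))
    (E : WeierstrassCurve F) [E.IsElliptic] (C : VariableChange M)
    (h : LocSemi v (C • E.map (algebraMap F M))) :
    ∃ C : VariableChange F, LocSemi v ((C • E).map (algebraMap F M)) := by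
  have hvu0 : v (C.u : M) ≠ 0 := by simp
  have hu0 : (C.u : M) ≠ 0 := C.u.ne_zero
  obtain ⟨δ, hδ0, hδ⟩ : ∃ δ : F, δ ≠ 0 ∧ v (C.u : M) ^ 12 = v (algebraMap F M δ) := by
    rcases h.2 with h1 | h1
    · refine ⟨E.Δ, E.isUnit_Δ.ne_zero, ?_⟩
      have h2 := val_smul_Δ (v := v) (E.map (algebraMap F M)) C
      rw [h1, one_mul, map_Δ] at h2
      exact h2
    · have h2 := val_smul_c₄ (v := v) (E.map (algebraMap F M)) C
      rw [h1, one_mul, map_c₄] at h2
      refine ⟨E.c₄ ^ 3, ?_, ?_⟩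
      · intro h3
        have h4 : E.c₄ = 0 := pow_eq_zero_iff (three_ne_zero) |>.1 h3
        rw [h4, map_zero, map_zero] at h2
        exact pow_ne_zero 4 hvu0 h2
      · rw [map_pow, map_pow, ← h2, ← pow_mul]
  obtain ⟨π, hπ0, hπ⟩ := u_desc hD hA hc hg hu0 hδ0 hδ
  rcases hunit with hg1 | ⟨h2, h3⟩
  · let P : VariableChange F := ⟨Units.mk0 π hπ0, 0, 0, 0⟩
    have hπM : algebraMap F M π ≠ 0 := by simpa using hπ0
    set ω := algebraMap F M π with hω
    let C₁ : VariableChange M := ⟨C.u * (Units.mk0 ω hπM)⁻¹, C.r / ω ^ 2, C.s / ω, C.t / ω ^ 3⟩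
    have e1 : C = C₁ * P.map (algebraMap F M) := by
      rw [VariableChange.mul_def]
      ext
      · simp only [C₁, P, VariableChange.map]
        simp [← hω, hπM]
      · simp only [C₁, P, VariableChange.map]
        simp [← hω, hπM]
      · simp only [C₁, P, VariableChange.map]
        simp only [Units.coe_map, Units.val_mk0, MonoidHom.coe_coe, ← hω]
        field_simp
        simp
      · simp only [C₁, P, VariableChange.map]
        simp [← hω, hπM]
    let D₀ : VariableChange M := ⟨(C₁.u)⁻¹, 0, 0, 0⟩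
    have hC₁u : v (C₁.u : M) = 1 := by
      simp only [C₁, Units.val_mul, map_mul, Units.val_inv_eq_inv_val, Units.val_mk0, map_inv₀]
      rw [hπ, mul_inv_cancel₀ hvu0]
    have e2 : D₀ * C₁ = ⟨1, C₁.r, C₁.s, C₁.t⟩ := by
      rw [VariableChange.mul_def]
      ext <;> simp [D₀]
    have h4 : LocSemi v ((⟨1, C₁.r, C₁.s, C₁.t⟩ : VariableChange M) •
        (P • E).map (algebraMap F M)) := by
      rw [← map_variableChange, ← e2, mul_smul, ← mul_smul C₁, ← e1]
      refine LocSemi.smul v h D₀ ?_ ?_ ?_ ?_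
      · simp only [D₀, Units.val_inv_eq_inv_val, map_inv₀, hC₁u, inv_one]
      all_goals simp [D₀]
    obtain ⟨C', hC'⟩ := descend_unit hD hA hg1 (P • E) h4
    refine ⟨C' * P, ?_⟩
    rw [mul_smul]
    exact hC'
  · exact descend_short h2 h3 E C h hπ0 hπ

end two

end Pool.Agent.MP_0d9be2.H36
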