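import Pool.Agent.Lib.MP_0d9be2_nt.H36.Descent
import Pool.Agent.Lib.MP_0d9be2_nt.H7.Model

/-!
# Decomposition groups in the algebraic closure and in finite extensions
-/

set_option autoImplicit false

open scoped NumberField Pointwise
open IsDedekindDomain

namespace Pool.Agent.MP_0d9be2.H36

section trans

variable {k Ω : Type} [Field k] [Field Ω] [Algebra k Ω]

theorem isInvariant [IsGalois k Ω] : Algebra.IsInvariant (𝓞 k) (𝓞 Ω) (Ω ≃ₐ[k] Ω) := by
  constructor
  intro b hb
  have h1 : (b : Ω) ∈ Set.range (algebraMap k Ω) := by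
    refine (InfiniteGalois.mem_range_algebraMap_iff_fixed (k := k) (K := Ω) (b : Ω)).2 ?_
    intro σ
    exact congrArg (algebraMap (𝓞 Ω) Ω) (hb σ)
  obtain ⟨a, ha⟩ := h1
  have h2 : IsIntegral ℤ a := by
    have h3 : IsIntegral ℤ (algebraMap k Ω a) := by
      rw [ha]
      exact b.2
    exact (isIntegral_algebraMap_iff (algebraMap k Ω).injective).1 h3
  refine ⟨⟨a, h2⟩, ?_⟩
  apply NumberField.RingOfIntegers.ext
  exact ha

theorem exists_smul_eq [IsGalois k Ω] (P Q : Ideal (𝓞 Ω)) [P.IsPrime] [Q.IsPrime]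
    (h : P.under (𝓞 k) = Q.under (𝓞 k)) : ∃ σ : Ω ≃ₐ[k] Ω, Q = σ • P := by
  let _ : TopologicalSpace (𝓞 Ω) := ⊥
  have : DiscreteTopology (𝓞 Ω) := ⟨rfl⟩
  have := isInvariant (k := k) (Ω := Ω)
  have : SMulCommClass (Ω ≃ₐ[k] Ω) (𝓞 k) (𝓞 Ω) := by
    constructor
    intro σ a b
    apply NumberField.RingOfIntegers.ext
    change σ (algebraMap k Ω (a : k) * (b : Ω)) = algebraMap k Ω (a : k) * σ (b : Ω)
    rw [map_mul, AlgEquiv.commutes]
  have : ContinuousSMul (Ω ≃ₐ[k] Ω) (𝓞 Ω) := by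
    constructor
    refine continuous_prod_of_discrete_right.2 fun x => ?_
    refine continuous_discrete_rng.2 fun y => ?_
    rw [isOpen_iff_forall_mem_open]
    intro σ₀ hσ₀
    refine ⟨σ₀ • (MulAction.stabilizer (Ω ≃ₐ[k] Ω) (x : Ω) : Set (Ω ≃ₐ[k] Ω)), ?_,
      (stabilizer_isOpen_of_isIntegral (x : Ω)).smul σ₀, ?_⟩
    · rintro _ ⟨τ, hτ, rfl⟩
      have h1 : τ (x : Ω) = x := hτ
      have h2 : σ₀ • x = y := hσ₀
      change (σ₀ * τ) • x = y
      rw [← h2]
      apply NumberField.RingOfIntegers.ext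
      change σ₀ (τ (x : Ω)) = σ₀ (x : Ω)
      rw [h1]
    · exact ⟨1, one_mem (MulAction.stabilizer (Ω ≃ₐ[k] Ω) (x : Ω)), mul_one σ₀⟩
  exact Algebra.IsInvariant.exists_smul_of_under_eq_of_profinite P Q h

/-- Lifting an element of a decomposition group. -/
theorem exists_lift {F N Ω : Type} [Field F] [Field N] [Field Ω] [Algebra F N] [Algebra F Ω]
    [Algebra N Ω] [IsScalarTower F N Ω] [IsGalois F Ω] (τ : N ≃ₐ[F] N) (W : Ideal (𝓞 N))
    [W.IsPrime] (hτ : τ • W = W) :
    ∃ (P : Ideal (𝓞 Ω)) (σ : Ω ≃ₐ[F] Ω), P.IsPrime ∧ P.under (𝓞 N) = W ∧ σ • P = P ∧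
      ∀ x : N, σ (algebraMap N Ω x) = algebraMap N Ω (τ x) := by
  have hNΩ : IsGalois N Ω := IsGalois.tower_top_of_isGalois F N Ω
  have hint : Algebra.IsIntegral (𝓞 N) (𝓞 Ω) := by
    constructor
    intro x
    have h1 : IsIntegral ℤ x := by
      have h2 : IsIntegral ℤ (algebraMap (𝓞 Ω) Ω x) := x.2
      exact (isIntegral_algebraMap_iff NumberField.RingOfIntegers.coe_injective).1 h2
    exact h1.tower_top
  have hinj : Function.Injective (algebraMap (𝓞 N) (𝓞 Ω)) := by
    intro a b hab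
    apply NumberField.RingOfIntegers.ext
    apply (algebraMap N Ω).injective
    exact congrArg (algebraMap (𝓞 Ω) Ω) hab
  obtain ⟨P, hP, hPW⟩ : ∃ P : Ideal (𝓞 Ω), P.IsPrime ∧ P.under (𝓞 N) = W := by
    obtain ⟨Q, hQ, hQW⟩ := Ideal.exists_ideal_over_prime_of_isIntegral_of_isDomain (S := 𝓞 Ω) W
      (by
        rw [(RingHom.injective_iff_ker_eq_bot _).1 hinj]
        exact bot_le)
    exact ⟨Q, hQ, hQW⟩
  set σ₀ : Ω ≃ₐ[F] Ω := τ.liftNormal Ω with hσ₀
  have hσ₀c : ∀ x : N, σ₀ (algebraMap N Ω x) = algebraMap N Ω (τ x) := fun x =>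
    τ.liftNormal_commutes Ω x
  have hσ₀c' : ∀ x : 𝓞 N, σ₀ • (algebraMap (𝓞 N) (𝓞 Ω) x) = algebraMap (𝓞 N) (𝓞 Ω) (τ • x) := by
    intro x
    apply NumberField.RingOfIntegers.ext
    exact hσ₀c (x : N)
  have hunder : (σ₀ • P).under (𝓞 N) = P.under (𝓞 N) := by
    rw [hPW]
    ext x
    rw [Ideal.under_def, Ideal.mem_comap, Ideal.mem_pointwise_smul_iff_inv_smul_mem]
    have h1 : σ₀⁻¹ • algebraMap (𝓞 N) (𝓞 Ω) x = algebraMap (𝓞 N) (𝓞 Ω) (τ⁻¹ • x) := by
      rw [inv_smul_eq_iff, hσ₀c', smul_inv_smul]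
    rw [h1]
    have h2 : algebraMap (𝓞 N) (𝓞 Ω) (τ⁻¹ • x) ∈ P ↔ τ⁻¹ • x ∈ W := by
      rw [← hPW, Ideal.under_def, Ideal.mem_comap]
    rw [h2, ← Ideal.mem_pointwise_smul_iff_inv_smul_mem, hτ]
  obtain ⟨ρ, hρ⟩ := exists_smul_eq (k := N) (Ω := Ω) (σ₀ • P) P hunder
  refine ⟨P, (ρ.restrictScalars F) * σ₀, hP, hPW, ?_, ?_⟩
  · rw [mul_smul]
    have h1 : ∀ J : Ideal (𝓞 Ω), (ρ.restrictScalars F) • J = ρ • J := by
      intro J
      ext x
      rw [Ideal.mem_pointwise_smul_iff_inv_smul_mem (a := ρ.restrictScalars F),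
        Ideal.mem_pointwise_smul_iff_inv_smul_mem (a := ρ)]
      have h2 : (ρ.restrictScalars F)⁻¹ • x = ρ⁻¹ • x := by
        apply NumberField.RingOfIntegers.ext
        rfl
      rw [h2]
    rw [h1]
    exact hρ.symm
  · intro x
    change ρ (σ₀ (algebraMap N Ω x)) = _
    rw [hσ₀c, AlgEquiv.commutes]

end trans

section pgroup

variable {K : Type} [Field K] [NumberField K]

/-- The compositum of `F` and `M` over `F`. -/
noncomputable abbrev comp (F M : IntermediateField K (AlgebraicClosure K)) :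
    IntermediateField F (AlgebraicClosure K) :=
  IntermediateField.extendScalars (le_sup_left : F ≤ F ⊔ M)

theorem numberField_comp (F M : IntermediateField K (AlgebraicClosure K)) [NumberField F]
    [NumberField M] : NumberField (comp F M) := by
  have h1 : FiniteDimensional K F := FiniteDimensional.right ℚ K F
  have h2 : FiniteDimensional K M := FiniteDimensional.right ℚ K M
  have h3 : FiniteDimensional K (F ⊔ M : IntermediateField K (AlgebraicClosure K)) :=
    IntermediateField.finiteDimensional_sup F M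
  have h4 : NumberField (F ⊔ M : IntermediateField K (AlgebraicClosure K)) := by
    have : FiniteDimensional ℚ (F ⊔ M : IntermediateField K (AlgebraicClosure K)) :=
      FiniteDimensional.trans ℚ K _
    exact NumberField.mk
  exact NumberField.of_ringEquiv
    (K := (F ⊔ M : IntermediateField K (AlgebraicClosure K))) (L := comp F M)
    { toFun := fun x => ⟨x.1, x.2⟩
      invFun := fun x => ⟨x.1, x.2⟩
      left_inv := fun _ => rfl
      right_inv := fun _ => rfl
      map_mul' := fun _ _ => rfl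
      map_add' := fun _ _ => rfl }

theorem isGalois_comp (F M : IntermediateField K (AlgebraicClosure K)) [IsGalois K M] :
    IsGalois F (comp F M) := by
  have hn : Normal F (comp F M) := by
    rw [IntermediateField.normal_iff_forall_map_le']
    intro σ x hx
    obtain ⟨y, hy, rfl⟩ := hx
    have hy' : y ∈ F ⊔ M := hy
    change σ y ∈ F ⊔ M
    have h1 : (F ⊔ M).map (σ.restrictScalars K : AlgebraicClosure K →ₐ[K] AlgebraicClosure K) ≤
        F ⊔ M := by
      rw [IntermediateField.map_sup]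
      refine sup_le_sup ?_ ?_
      · rintro _ ⟨z, hz, rfl⟩
        have h2 : σ z = z := σ.commutes (⟨z, hz⟩ : F)
        change σ z ∈ F
        rw [h2]
        exact hz
      · exact IntermediateField.normal_iff_forall_map_le.1 (inferInstanceAs (Normal K M)) _
    exact h1 ⟨y, hy', rfl⟩
  exact { }

/-- In the first alternative the decomposition groups in `F M / F` are `p`-groups. -/
theorem stab_pgroup (F M : IntermediateField K (AlgebraicClosure K)) [NumberField F]
    [NumberField M] [IsGalois K M] {p : ℕ} (hp : p.Prime) (v : HeightOneSpectrum (𝓞 K))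
    (h : ∀ (σ : AlgebraicClosure K ≃ₐ[F] AlgebraicClosure K) (P : Ideal (𝓞 (AlgebraicClosure K))),
      P.IsPrime → P.under (𝓞 K) = v.asIdeal → σ • P = P →
        ∃ j : ℕ, ∀ x ∈ M, (σ ^ p ^ j) x = x)
    (W : Ideal (𝓞 (comp F M))) [W.IsPrime] (hW : W.under (𝓞 K) = v.asIdeal) :
    ∃ k, Nat.card (MulAction.stabilizer (comp F M ≃ₐ[F] comp F M) W) = p ^ k := by
  have hN := numberField_comp F M
  have hfd : FiniteDimensional F (comp F M) := FiniteDimensional.right ℚ F (comp F M)
  have : Fact p.Prime := ⟨hp⟩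
  have hG : IsPGroup p (MulAction.stabilizer (comp F M ≃ₐ[F] comp F M) W) := by
    rintro ⟨τ, hτ⟩
    obtain ⟨P, σ, hP, hPW, hσP, hσ⟩ := exists_lift (Ω := AlgebraicClosure K) τ W hτ
    obtain ⟨j, hj⟩ := h σ P hP (by
      rw [← hW, ← hPW]
      ext x
      rfl) hσP
    refine ⟨j, Subtype.ext ?_⟩
    have hpow : ∀ (n : ℕ) (x : comp F M), (σ ^ n) (x : AlgebraicClosure K) =
        (((τ ^ n) x : comp F M) : AlgebraicClosure K) := by
      intro n
      induction n with
      | zero => intro x; rfl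
      | succ n ih =>
        intro x
        rw [pow_succ, pow_succ]
        change (σ ^ n) (σ (x : AlgebraicClosure K)) = (((τ ^ n) (τ x) : comp F M) : _)
        rw [← ih (τ x)]
        congr 1
        exact hσ x
    -- σ ^ p ^ j fixes F ⊔ M
    have hfix : ∀ x ∈ F ⊔ M, (σ ^ p ^ j) x = x := by
      have h1 : (σ ^ p ^ j).restrictScalars K ∈ (F ⊔ M).fixingSubgroup := by
        rw [IntermediateField.fixingSubgroup_sup]
        constructor
        · refine (IntermediateField.mem_fixingSubgroup_iff F _).2 fun x hx => ?_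
          exact (σ ^ p ^ j).commutes (⟨x, hx⟩ : F)
        · exact (IntermediateField.mem_fixingSubgroup_iff M _).2 fun x hx => hj x hx
      exact fun x hx => (IntermediateField.mem_fixingSubgroup_iff _ _).1 h1 x hx
    change τ ^ p ^ j = 1
    ext x
    rw [← hpow]
    exact hfix x.1 x.2
  exact (IsPGroup.iff_card).1 hG

/-- A prime of a number field below a prime. -/
noncomputable def below (k : Type) {F : Type} [Field k] [NumberField k] [Field F] [NumberField F] [Algebra k F]
    (w : HeightOneSpectrum (𝓞 F)) : HeightOneSpectrum (𝓞 k) :=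
  ⟨w.asIdeal.under (𝓞 k), inferInstance, fun h =>
    w.ne_bot (Ideal.eq_bot_of_comap_eq_bot (R := 𝓞 k) h)⟩

theorem liesOver_below (k : Type) {F : Type} [Field k] [NumberField k] [Field F] [NumberField F]
    [Algebra k F] (w : HeightOneSpectrum (𝓞 F)) : w.asIdeal.LiesOver (below k w).asIdeal := ⟨rfl⟩

/-- For large `n` the curve is semistable over `F n`. -/
theorem semistable_large (F : ℕ → IntermediateField K (AlgebraicClosure K))
    (hF : ∀ n, NumberField (F n)) {p : ℕ} (hp : p.Prime) (hp5 : 5 ≤ p)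
    (h : ∀ (M : IntermediateField K (AlgebraicClosure K)), NumberField M → IsGalois K M →
      ∀ v : HeightOneSpectrum (𝓞 K), ∃ n₀, ∀ n, n₀ ≤ n →
      ∀ (σ : AlgebraicClosure K ≃ₐ[F n] AlgebraicClosure K) (P : Ideal (𝓞 (AlgebraicClosure K))),
      P.IsPrime → P.under (𝓞 K) = v.asIdeal → σ • P = P → ∃ j : ℕ, ∀ x ∈ M, (σ ^ p ^ j) x = x)
    (E : WeierstrassCurve K) [E.IsElliptic] :
    ∃ n₀, ∀ n, n₀ ≤ n → ∀ w : HeightOneSpectrum (𝓞 (F n)),
      H29.SemistableAt (E.map (algebraMap K (F n))) w := by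
  classical
  obtain ⟨M, hM, _, hMG, hss⟩ := H29.potential E
  -- the finite set of primes where E is not semistable
  have hfin : {v : HeightOneSpectrum (𝓞 K) | ¬ H29.SemistableAt E v}.Finite := by
    obtain ⟨W₀, hW₀⟩ := H7.exists_model E
    refine (H7.finite_dvd (H7.model_disc_ne_zero hW₀)).subset ?_
    intro v hv
    by_contra hv'
    exact hv ⟨W₀, hW₀, Or.inl hv'⟩
  choose n₁ hn₁ using fun v => h M hM hMG v
  refine ⟨hfin.toFinset.sup n₁, fun n hn w => ?_⟩
  have := hF n
  set v := below K w with hv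
  have hwv := liesOver_below K w
  by_cases hvs : H29.SemistableAt E v
  · exact H29.semi_up E v w hwv hvs
  have hnv : n₁ v ≤ n := (Finset.le_sup (by simpa using hvs)).trans hn
  have hN := numberField_comp (F n) M
  have hNG := isGalois_comp (F n) M
  -- a prime above w
  obtain ⟨W, hW⟩ : ∃ W : HeightOneSpectrum (𝓞 (comp (F n) M)), W.asIdeal.LiesOver w.asIdeal := by
    obtain ⟨Q, hQ1, hQ2⟩ := Ideal.nonempty_primesOver (S := 𝓞 (comp (F n) M)) w.asIdeal
    exact ⟨⟨Q, hQ1, Ideal.ne_bot_of_liesOver_of_ne_bot w.ne_bot Q⟩, hQ2⟩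
  have hWv : W.asIdeal.under (𝓞 K) = v.asIdeal := by
    have h1 : W.asIdeal.under (𝓞 (F n)) = w.asIdeal := hW.over.symm
    have h2 : v.asIdeal = w.asIdeal.under (𝓞 K) := rfl
    rw [h2, ← h1]
    ext x
    rfl
  have hG := stab_pgroup (F n) M hp v (fun σ P hP hPv hσ => hn₁ v n hnv σ P hP hPv hσ)
    W.asIdeal hWv
  -- semistability over the compositum
  let _ : Algebra M (comp (F n) M) := RingHom.toAlgebra
    { toFun := fun x => ⟨x.1, (le_sup_right : M ≤ F n ⊔ M) x.2⟩
      map_one' := rfl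
      map_mul' := fun _ _ => rfl
      map_zero' := rfl
      map_add' := fun _ _ => rfl }
  have hssW : H29.SemistableAt ((E.map (algebraMap K (F n))).map
      (algebraMap (F n) (comp (F n) M))) W := by
    have h1 := H29.semi_up (F := comp (F n) M) (E.map (algebraMap K M)) (below M W) W
      (liesOver_below M W) (hss _)
    rw [WeierstrassCurve.map_map] at h1 ⊢
    exact h1
  exact semistable_descent (E.map (algebraMap K (F n))) w W hW hp hp5 hG hssW

end pgroup

end Pool.Agent.MP_0d9be2.H36
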