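import Pool.Agent.Lib.MP_0d9be2_nt.H36.Dict
import Pool.Agent.Lib.MP_0d9be2_nt.H63.D3

/-!
# Semistability for large `n` in the first alternative of the localisation
-/

set_option autoImplicit false

open scoped NumberField Pointwise
open IsDedekindDomain NumberField

namespace Pool.Agent.MP_0d9be2.H36

variable {K : Type} [Field K] [NumberField K]

/-- In the first alternative with `p ≥ 5` the curve is semistable over `F n` for all large `n`. -/
theorem semistable_tower (hBr : Bridge_S) {p : ℕ} (hp : p.Prime) (hp5 : 5 ≤ p)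
    (F : ℕ → IntermediateField K (AlgebraicClosure K)) (hmono : Monotone F)
    (hF : ∀ n, NumberField (F n))
    (Ki : IntermediateField K (AlgebraicClosure K)) (hKi : Ki = ⨆ n, F n)
    (hall : ∀ v : AbsoluteValue (AlgebraicClosure K) ℝ, v.IsNontrivial →
      ∀ σ : Gal(AlgebraicClosure K/Ki), (∀ x, v (σ x) = v x) → ∀ x, ∃ j : ℕ, (σ ^ p ^ j) x = x)
    (E : WeierstrassCurve K) [E.IsElliptic] :
    ∃ n₀, ∀ n, n₀ ≤ n → ∀ w : HeightOneSpectrum (𝓞 (F n)),
      H29.SemistableAt (E.map (algebraMap K (F n))) w := by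
  have hfd : ∀ n, FiniteDimensional K (F n) := fun n => by
    have := hF n
    exact FiniteDimensional.right ℚ K (F n)
  refine semistable_large F hF hp hp5 ?_ E
  intro M hM _ v
  have hMfd : FiniteDimensional K M := FiniteDimensional.right ℚ K M
  obtain ⟨n₀, hn₀⟩ := H63.d3 hBr F hmono Ki hKi hall M v
  refine ⟨n₀, fun n hn σ P hP hPv hσ => ?_⟩
  obtain ⟨j, hj⟩ := hn₀ n hn (σ.restrictScalars K)
    ((IntermediateField.mem_fixingSubgroup_iff _ _).2 fun x hx => σ.commutes (⟨x, hx⟩ : F n))
    P hP ⟨hPv.symm⟩ (by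
      intro x
      have h1 : (σ.restrictScalars K) • x = σ • x := by
        apply NumberField.RingOfIntegers.ext
        rfl
      rw [h1]
      conv_lhs => rw [← hσ]
      exact Ideal.smul_mem_pointwise_smul_iff)
  refine ⟨j, fun x hx => ?_⟩
  have h2 := hj x hx
  have h3 : ∀ (m : ℕ) (y : AlgebraicClosure K), ((σ.restrictScalars K) ^ m) y = (σ ^ m) y := by
    intro m
    induction m with
    | zero => intro y; rfl
    | succ m ih =>
      intro y
      rw [pow_succ, pow_succ]
      exact ih (σ y)
  rw [← h3]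
  exact h2

end Pool.Agent.MP_0d9be2.H36
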