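import Pool.Agent.Lib.MP_0d9be2_nt.Defs
import Pool.Agent.Lib.MP_0d9be2_nt.H7.Iface2

/-!
# PART 3.2: the number of affine points of the base change of a fixed model depends only on the
residue degree
-/

set_option autoImplicit false

open scoped NumberField
open IsDedekindDomain

namespace Pool.Agent.MP_0d9be2.H36

open Pool.Agent.MP_0d9be2

/-- Two finite extensions of the same degree of a finite field are isomorphic. -/
theorem exists_algEquiv {k l l' : Type} [Field k] [Field l] [Field l'] [Algebra k l]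
    [Algebra k l'] [Finite k] [Finite l] [Finite l']
    (h : Module.finrank k l = Module.finrank k l') : Nonempty (l ≃ₐ[k] l') := by
  obtain ⟨p, hp⟩ := CharP.exists k
  have : Fact p.Prime := ⟨CharP.char_is_prime k p⟩
  have : Module.Finite k l := Module.Finite.of_finite
  have : NeZero (Module.finrank k l) := NeZero.of_pos Module.finrank_pos
  exact ⟨(FiniteField.algEquivExtension k p (Module.finrank k l) l rfl).trans
    (FiniteField.algEquivExtension k p (Module.finrank k l) l' h.symm).symm⟩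

theorem affPts_congr {k l l' : Type} [Field k] [Field l] [Field l'] [Algebra k l]
    [Algebra k l'] (e : l ≃ₐ[k] l') (W : WeierstrassCurve k) :
    Nat.card {xy : l × l // (W.map (algebraMap k l)).toAffine.Equation xy.1 xy.2} =
      Nat.card {xy : l' × l' // (W.map (algebraMap k l')).toAffine.Equation xy.1 xy.2} := by
  refine Nat.card_congr ((Equiv.prodCongr e.toEquiv e.toEquiv).subtypeEquiv ?_)
  rintro ⟨x, y⟩
  have h1 : W.map (algebraMap k l') = (W.map (algebraMap k l)).map (e : l →+* l') := by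
    rw [WeierstrassCurve.map_map]
    congr 1
    ext z
    exact (e.commutes z).symm
  rw [h1]
  exact (WeierstrassCurve.Affine.map_equation (W.map (algebraMap k l)) (f := (e : l →+* l'))
    (RingHom.injective _) x y).symm

theorem affPts_eq {K F : Type} [Field K] [NumberField K] [Field F] [NumberField F] [Algebra K F]
    (v : HeightOneSpectrum (𝓞 K)) (W₀ : WeierstrassCurve (𝓞 K)) (w : HeightOneSpectrum (𝓞 F))
    (hw : w.asIdeal.LiesOver v.asIdeal) :
    affPts (W₀.map (algebraMap (𝓞 K) (𝓞 F))) w =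
      Nat.card {xy : (𝓞 F ⧸ w.asIdeal) × (𝓞 F ⧸ w.asIdeal) //
        ((W₀.map (Ideal.Quotient.mk v.asIdeal)).map
          (algebraMap (𝓞 K ⧸ v.asIdeal) (𝓞 F ⧸ w.asIdeal))).toAffine.Equation xy.1 xy.2} := by
  unfold affPts
  rw [WeierstrassCurve.map_map, WeierstrassCurve.map_map]
  rfl

theorem same : Same_S := by
  intro K _ _ v W₀
  classical
  let P : ℕ → ℕ → Prop := fun f n => ∃ (F : Type) (_ : Field F) (_ : NumberField F)
    (_ : Algebra K F) (w : HeightOneSpectrum (𝓞 F)), w.asIdeal.LiesOver v.asIdeal ∧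
      affPts (W₀.map (algebraMap (𝓞 K) (𝓞 F))) w = n ∧ w.asIdeal.inertiaDeg (𝓞 K) = f
  have hkey : ∀ f n m, P f n → P f m → n = m := by
    rintro f n m ⟨F, _, _, _, w, hw, hn, hf⟩ ⟨F', _, _, _, w', hw', hm, hf'⟩
    let _ : Field (𝓞 K ⧸ v.asIdeal) := Ideal.Quotient.field _
    let _ : Field (𝓞 F ⧸ w.asIdeal) := Ideal.Quotient.field _
    let _ : Field (𝓞 F' ⧸ w'.asIdeal) := Ideal.Quotient.field _
    have : Finite (𝓞 K ⧸ v.asIdeal) := Ideal.finiteQuotientOfFreeOfNeBot _ v.ne_bot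
    have : Finite (𝓞 F ⧸ w.asIdeal) := Ideal.finiteQuotientOfFreeOfNeBot _ w.ne_bot
    have : Finite (𝓞 F' ⧸ w'.asIdeal) := Ideal.finiteQuotientOfFreeOfNeBot _ w'.ne_bot
    rw [Ideal.inertiaDeg_eq_of_isMaximal v.asIdeal] at hf hf'
    obtain ⟨e⟩ := exists_algEquiv (k := 𝓞 K ⧸ v.asIdeal) (l := 𝓞 F ⧸ w.asIdeal)
      (l' := 𝓞 F' ⧸ w'.asIdeal) (hf.trans hf'.symm)
    rw [← hn, ← hm, affPts_eq v W₀ w hw, affPts_eq v W₀ w' hw']
    exact affPts_congr e _
  refine ⟨fun f => if h : ∃ n, P f n then h.choose else 0, ?_⟩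
  intro F _ _ _ w hw
  constructor
  · have hP : P (w.asIdeal.inertiaDeg (𝓞 K)) (affPts (W₀.map (algebraMap (𝓞 K) (𝓞 F))) w) :=
      ⟨F, inferInstance, inferInstance, inferInstance, w, hw, rfl, rfl⟩
    have hex : ∃ n, P (w.asIdeal.inertiaDeg (𝓞 K)) n := ⟨_, hP⟩
    simp only [dif_pos hex]
    exact hkey _ _ _ hP hex.choose_spec
  · rw [Ideal.absNorm_eq_pow_inertiaDeg'_of_liesOver w.asIdeal v.asIdeal v.isPrime v.ne_bot,
      Ideal.inertiaDeg'_eq_inertiaDeg]

end Pool.Agent.MP_0d9be2.H36
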