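import Pool.Agent.Lib.MP_0d9be2_nt.H36.Large

/-!
# The second alternative: the non-semistable primes lie over one prime
-/

set_option autoImplicit false

open scoped NumberField Pointwise
open IsDedekindDomain NumberField

namespace Pool.Agent.MP_0d9be2.H36

section lift

/-- Lifting an element of a decomposition group, with a prescribed prime above. -/
theorem exists_lift_at {F N Ω : Type} [Field F] [Field N] [Field Ω] [Algebra F N] [Algebra F Ω]
    [Algebra N Ω] [IsScalarTower F N Ω] [IsGalois F Ω] (τ : N ≃ₐ[F] N) (P : Ideal (𝓞 Ω))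
    [P.IsPrime] (hτ : τ • (P.under (𝓞 N)) = P.under (𝓞 N)) :
    ∃ σ : Ω ≃ₐ[F] Ω, σ • P = P ∧ ∀ x : N, σ (algebraMap N Ω x) = algebraMap N Ω (τ x) := by
  have hNΩ : IsGalois N Ω := IsGalois.tower_top_of_isGalois F N Ω
  set σ₀ : Ω ≃ₐ[F] Ω := τ.liftNormal Ω with hσ₀
  have hσ₀c : ∀ x : N, σ₀ (algebraMap N Ω x) = algebraMap N Ω (τ x) := fun x =>
    τ.liftNormal_commutes Ω x
  have hσ₀c' : ∀ x : 𝓞 N, σ₀ • (algebraMap (𝓞 N) (𝓞 Ω) x) = algebraMap (𝓞 N) (𝓞 Ω) (τ • x) := by
    intro x
    apply NumberField.RingOfIntegers.ext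
    exact hσ₀c (x : N)
  have hunder : (σ₀ • P).under (𝓞 N) = P.under (𝓞 N) := by
    ext x
    rw [Ideal.under_def, Ideal.mem_comap, Ideal.mem_pointwise_smul_iff_inv_smul_mem]
    have h1 : σ₀⁻¹ • algebraMap (𝓞 N) (𝓞 Ω) x = algebraMap (𝓞 N) (𝓞 Ω) (τ⁻¹ • x) := by
      rw [inv_smul_eq_iff, hσ₀c', smul_inv_smul]
    rw [h1]
    have h2 : algebraMap (𝓞 N) (𝓞 Ω) (τ⁻¹ • x) ∈ P ↔ τ⁻¹ • x ∈ P.under (𝓞 N) := Iff.rfl
    rw [h2, ← Ideal.mem_pointwise_smul_iff_inv_smul_mem, hτ]
  obtain ⟨ρ, hρ⟩ := exists_smul_eq (k := N) (Ω := Ω) (σ₀ • P) P hunder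
  refine ⟨(ρ.restrictScalars F) * σ₀, ?_, ?_⟩
  · rw [mul_smul]
    have h1 : ∀ J : Ideal (𝓞 Ω), (ρ.restrictScalars F) • J = ρ • J := by
      intro J
      ext x
      rw [Ideal.mem_pointwise_smul_iff_inv_smul_mem (a := ρ.restrictScalars F),
        Ideal.mem_pointwise_smul_iff_inv_smul_mem (a := ρ)]
      have h2 : (ρ.restrictScalars F)⁻¹ • x = ρ⁻¹ • x := by
        apply NumberField.RingOfIntegers.ext
        rfl
      rw [h2]
    rw [h1]
    exact hρ.symm
  · intro x
    change ρ (σ₀ (algebraMap N Ω x)) = _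
    rw [hσ₀c, AlgEquiv.commutes]

end lift

variable {K : Type} [Field K] [NumberField K]

/-- Compactness for one prime. -/
theorem fix_of_place (F : ℕ → IntermediateField K (AlgebraicClosure K)) (hmono : Monotone F)
    [hfd : ∀ n, FiniteDimensional K (F n)]
    (Ki : IntermediateField K (AlgebraicClosure K)) (hKi : Ki = ⨆ n, F n)
    (P : Ideal (𝓞 (AlgebraicClosure K)))
    (hall : ∀ σ : Gal(AlgebraicClosure K/Ki), (∀ x : 𝓞 (AlgebraicClosure K), σ • x ∈ P ↔ x ∈ P) →
      σ = 1)
    (M : IntermediateField K (AlgebraicClosure K)) [FiniteDimensional K M] :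
    ∃ n₀ : ℕ, ∀ n, n₀ ≤ n → ∀ σ ∈ (F n).fixingSubgroup,
      (∀ x : 𝓞 (AlgebraicClosure K), σ • x ∈ P ↔ x ∈ P) → ∀ x ∈ M, σ x = x := by
  by_contra hcon
  push Not at hcon
  -- a primitive element
  obtain ⟨θ', hθ'⟩ := Field.exists_primitive_element K M
  let θ : AlgebraicClosure K := M.val θ'
  have hgen : ∀ τ : Gal(AlgebraicClosure K/K), τ θ = θ → ∀ x ∈ M, τ x = x := by
    intro τ hτ x hx
    have h1 : (⟨x, hx⟩ : M) ∈ IntermediateField.adjoin K {θ'} := by
      rw [hθ']
      trivial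
    have h2 : IntermediateField.adjoin K {θ'} ≤
        (IntermediateField.fixedField (Subgroup.zpowers τ)).comap M.val := by
      rw [IntermediateField.adjoin_le_iff]
      rintro _ rfl
      change θ ∈ IntermediateField.fixedField (Subgroup.zpowers τ)
      rw [IntermediateField.mem_fixedField_iff]
      intro ρ hρ
      rw [Subgroup.mem_zpowers_iff] at hρ
      obtain ⟨m, rfl⟩ := hρ
      have h4 : τ ∈ MulAction.stabilizer Gal(AlgebraicClosure K/K) θ := hτ
      exact Subgroup.zpow_mem _ h4 m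
    have h3 : x ∈ IntermediateField.fixedField (Subgroup.zpowers τ) := h2 h1
    rw [IntermediateField.mem_fixedField_iff] at h3
    exact h3 τ (Subgroup.mem_zpowers τ)
  -- topology
  let G := Gal(AlgebraicClosure K/K)
  let _ : TopologicalSpace (𝓞 (AlgebraicClosure K)) := ⊥
  have hdisc : DiscreteTopology (𝓞 (AlgebraicClosure K)) := ⟨rfl⟩
  have hcs : ContinuousSMul G (𝓞 (AlgebraicClosure K)) := by
    rw [continuousSMul_iff_stabilizer_isOpen]
    intro x
    have h1 := stabilizer_isOpen_of_isIntegral (K := K) (L := AlgebraicClosure K)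
      (x : AlgebraicClosure K)
    convert h1 using 1
    ext g
    simp only [SetLike.mem_coe, MulAction.mem_stabilizer_iff]
    constructor
    · intro h
      exact congrArg (fun y : 𝓞 (AlgebraicClosure K) => (y : AlgebraicClosure K)) h
    · intro h
      exact NumberField.RingOfIntegers.ext h
  let B : ℕ → Set G := fun n => {q | q ∈ (F n).fixingSubgroup ∧
    (∀ x : 𝓞 (AlgebraicClosure K), (q • x ∈ P ↔ x ∈ P)) ∧ q θ ≠ θ}
  have hBanti : ∀ n, B (n + 1) ⊆ B n := by
    rintro n q ⟨h1, h2, h3⟩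
    exact ⟨IntermediateField.fixingSubgroup_le (hmono (Nat.le_succ n)) h1, h2, h3⟩
  have hBanti' : Antitone B := antitone_nat_of_succ_le hBanti
  have hBcl : ∀ n, IsClosed (B n) := by
    intro n
    have e1 : IsClosed {q : G | q ∈ (F n).fixingSubgroup} :=
      IntermediateField.fixingSubgroup_isClosed (F n)
    have e2 : IsClosed {q : G | ∀ x : 𝓞 (AlgebraicClosure K), (q • x ∈ P ↔ x ∈ P)} := by
      rw [Set.ofPred_forall]
      refine isClosed_iInter fun x => ?_
      have hc : Continuous fun q : G => q • x := by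
        fun_prop
      have hd : IsClosed {z : 𝓞 (AlgebraicClosure K) | z ∈ P ↔ x ∈ P} := isClosed_discrete _
      exact hd.preimage hc
    have e3 : IsClosed {q : G | q θ ≠ θ} := by
      have h1 := stabilizer_isOpen_of_isIntegral (K := K) (L := AlgebraicClosure K) θ
      exact h1.isClosed_compl
    have : B n = {q : G | q ∈ (F n).fixingSubgroup} ∩
        ({q : G | ∀ x : 𝓞 (AlgebraicClosure K), (q • x ∈ P ↔ x ∈ P)} ∩
        {q : G | q θ ≠ θ}) := rfl
    rw [this]
    exact e1.inter (e2.inter e3)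
  have hBne : ∀ n, (B n).Nonempty := by
    intro n
    obtain ⟨n', hn', σ, hσ, hPσ, x, hx, hne⟩ := hcon n
    exact ⟨σ, hBanti' hn' ⟨hσ, hPσ, fun h => hne (hgen _ h x hx)⟩⟩
  obtain ⟨σ, hσ⟩ := IsCompact.nonempty_iInter_of_sequence_nonempty_isCompact_isClosed
    B hBanti hBne ((hBcl 0).isCompact) hBcl
  rw [Set.mem_iInter] at hσ
  have hσfix : ∀ n, σ ∈ (F n).fixingSubgroup := fun n => (hσ n).1
  have hσstab := (hσ 0).2.1
  have hσθ := (hσ 0).2.2
  have hσKi : σ ∈ Ki.fixingSubgroup := by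
    have h1 : Ki ≤ IntermediateField.fixedField (Subgroup.zpowers σ) := by
      rw [hKi]
      refine iSup_le fun n x hx => ?_
      rw [IntermediateField.mem_fixedField_iff]
      intro ρ hρ
      have h2 : Subgroup.zpowers σ ≤ (F n).fixingSubgroup := by
        rw [Subgroup.zpowers_le]
        exact hσfix n
      exact (IntermediateField.mem_fixingSubgroup_iff _ _).1 (h2 hρ) x hx
    rw [IntermediateField.mem_fixingSubgroup_iff]
    intro x hx
    have h2 := h1 hx
    rw [IntermediateField.mem_fixedField_iff] at h2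
    exact h2 σ (Subgroup.mem_zpowers σ)
  let σ' : Gal(AlgebraicClosure K/Ki) := IntermediateField.fixingSubgroupEquiv Ki ⟨σ, hσKi⟩
  have hσ'x : ∀ x, σ' x = σ x := fun x => rfl
  have h1 : σ' = 1 := hall σ' (by
    intro x
    have h2 : σ' • x = σ • x := by
      apply NumberField.RingOfIntegers.ext
      rfl
    rw [h2]
    exact hσstab x)
  apply hσθ
  rw [← hσ'x, h1]
  rfl

/-- If the decomposition group at `P` is trivial then `E` is semistable at `P ∩ F n` for large
`n`. -/
theorem semistable_at_place (F : ℕ → IntermediateField K (AlgebraicClosure K)) (hmono : Monotone F)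
    (hF : ∀ n, NumberField (F n))
    (Ki : IntermediateField K (AlgebraicClosure K)) (hKi : Ki = ⨆ n, F n)
    (P : Ideal (𝓞 (AlgebraicClosure K))) [P.IsPrime]
    (hall : ∀ σ : Gal(AlgebraicClosure K/Ki), (∀ x : 𝓞 (AlgebraicClosure K), σ • x ∈ P ↔ x ∈ P) →
      σ = 1)
    (E : WeierstrassCurve K) [E.IsElliptic] :
    ∃ n₀, ∀ n, n₀ ≤ n → ∀ w : HeightOneSpectrum (𝓞 (F n)), w.asIdeal = P.under (𝓞 (F n)) →
      H29.SemistableAt (E.map (algebraMap K (F n))) w := by
  have hfd : ∀ n, FiniteDimensional K (F n) := fun n => by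
    have := hF n
    exact FiniteDimensional.right ℚ K (F n)
  obtain ⟨M, hM, _, hMG, hss⟩ := H29.potential E
  have hMfd : FiniteDimensional K M := FiniteDimensional.right ℚ K M
  obtain ⟨n₀, hn₀⟩ := fix_of_place F hmono Ki hKi P hall M
  refine ⟨n₀, fun n hn w hw => ?_⟩
  have := hF n
  have hN := numberField_comp (F n) M
  have hNG := isGalois_comp (F n) M
  have hNfd : FiniteDimensional (F n) (comp (F n) M) := FiniteDimensional.right ℚ _ _
  have hWw : (P.under (𝓞 (comp (F n) M))).under (𝓞 (F n)) = w.asIdeal := by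
    rw [hw]
    ext x
    rfl
  let W : HeightOneSpectrum (𝓞 (comp (F n) M)) :=
    ⟨P.under (𝓞 (comp (F n) M)), inferInstance, by
      intro h
      apply w.ne_bot
      rw [← hWw, h]
      rw [eq_bot_iff]
      intro x hx
      rw [Ideal.mem_comap, Ideal.mem_bot] at hx
      rw [Ideal.mem_bot]
      exact (FaithfulSMul.algebraMap_injective (𝓞 (F n)) (𝓞 (comp (F n) M)))
        (by rw [hx, map_zero])⟩
  have hW : W.asIdeal.LiesOver w.asIdeal := ⟨hWw.symm⟩
  have hG : ∃ k, Nat.card (MulAction.stabilizer (comp (F n) M ≃ₐ[F n] comp (F n) M) W.asIdeal) =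
      5 ^ k := by
    refine ⟨0, ?_⟩
    rw [pow_zero, Nat.card_eq_one_iff_unique]
    refine ⟨⟨?_⟩, ⟨1⟩⟩
    have hone : ∀ τ : MulAction.stabilizer (comp (F n) M ≃ₐ[F n] comp (F n) M) W.asIdeal,
        τ = 1 := by
      rintro ⟨τ, hτ⟩
      obtain ⟨σ, hσP, hσ⟩ := exists_lift_at (Ω := AlgebraicClosure K) τ P hτ
      have h1 : ∀ x ∈ M, (σ.restrictScalars K) x = x := by
        refine hn₀ n hn (σ.restrictScalars K)
          ((IntermediateField.mem_fixingSubgroup_iff _ _).2 fun x hx =>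
            σ.commutes (⟨x, hx⟩ : F n)) ?_
        intro x
        have h2 : (σ.restrictScalars K) • x = σ • x := by
          apply NumberField.RingOfIntegers.ext
          rfl
        rw [h2]
        conv_lhs => rw [← hσP]
        exact Ideal.smul_mem_pointwise_smul_iff
      have h2 : σ.restrictScalars K ∈ (F n ⊔ M).fixingSubgroup := by
        rw [IntermediateField.fixingSubgroup_sup]
        constructor
        · refine (IntermediateField.mem_fixingSubgroup_iff _ _).2 fun x hx => ?_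
          exact σ.commutes (⟨x, hx⟩ : F n)
        · exact (IntermediateField.mem_fixingSubgroup_iff M _).2 h1
      apply Subtype.ext
      change τ = 1
      ext x
      have h3 := hσ x
      have h4 : σ (x : AlgebraicClosure K) = x :=
        (IntermediateField.mem_fixingSubgroup_iff _ _).1 h2 x.1 x.2
      exact h3.symm.trans h4
    intro a b
    rw [hone a, hone b]
  -- semistability over the compositum
  let _ : Algebra M (comp (F n) M) := RingHom.toAlgebra
    { toFun := fun x => ⟨x.1, (le_sup_right : M ≤ F n ⊔ M) x.2⟩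
      map_one' := rfl
      map_mul' := fun _ _ => rfl
      map_zero' := rfl
      map_add' := fun _ _ => rfl }
  have hssW : H29.SemistableAt ((E.map (algebraMap K (F n))).map
      (algebraMap (F n) (comp (F n) M))) W := by
    have h1 := H29.semi_up (F := comp (F n) M) (E.map (algebraMap K M)) (below M W) W
      (liesOver_below M W) (hss _)
    rw [WeierstrassCurve.map_map] at h1 ⊢
    exact h1
  exact semistable_descent (E.map (algebraMap K (F n))) w W hW (p := 5) (by norm_num)
    le_rfl hG hssW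

/-- The predicate: `P` is the prime of the absolute value `v`. -/
def EqP (v : AbsoluteValue (AlgebraicClosure K) ℝ) (P : Ideal (𝓞 (AlgebraicClosure K))) : Prop :=
  ∀ x : 𝓞 (AlgebraicClosure K), v x < 1 ↔ x ∈ P

omit [NumberField K] in
/-- A prime of the algebraic closure gives a prime of a number field. -/
theorem under_ne_bot (L : IntermediateField K (AlgebraicClosure K))
    (P : Ideal (𝓞 (AlgebraicClosure K))) (hP : P ≠ ⊥) : P.under (𝓞 L) ≠ ⊥ := by
  have hint : Algebra.IsIntegral (𝓞 L) (𝓞 (AlgebraicClosure K)) := by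
    constructor
    intro x
    have h1 : IsIntegral ℤ x := by
      have h2 : IsIntegral ℤ (algebraMap (𝓞 (AlgebraicClosure K)) (AlgebraicClosure K) x) := x.2
      exact (isIntegral_algebraMap_iff NumberField.RingOfIntegers.coe_injective).1 h2
    exact h1.tower_top
  exact fun h => hP (Ideal.eq_bot_of_comap_eq_bot (R := 𝓞 L) h)

/-- The non-semistable primes over a given prime `v` of `K` which are not over `u`. -/
theorem second_one (hBr : Bridge_S) (F : ℕ → IntermediateField K (AlgebraicClosure K))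
    (hmono : Monotone F) (hF : ∀ n, NumberField (F n))
    (Ki : IntermediateField K (AlgebraicClosure K)) (hKi : Ki = ⨆ n, F n)
    (v₀ : AbsoluteValue (AlgebraicClosure K) ℝ)
    (hall : ∀ w : AbsoluteValue (AlgebraicClosure K) ℝ, w.IsNontrivial → ¬ v₀.IsEquiv w →
      ∀ σ : Gal(AlgebraicClosure K/Ki), (∀ x, w (σ x) = w x) → σ = 1)
    (E : WeierstrassCurve K) [E.IsElliptic] (m : ℕ) (u : HeightOneSpectrum (𝓞 (F m)))
    (hu : ∀ P : Ideal (𝓞 (AlgebraicClosure K)), P.IsPrime → P ≠ ⊥ → EqP v₀ P →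
      P.under (𝓞 (F m)) = u.asIdeal) (v : HeightOneSpectrum (𝓞 K)) :
    ∃ n₀, ∀ n, n₀ ≤ n → ∀ w : HeightOneSpectrum (𝓞 (F n)), w.asIdeal.LiesOver v.asIdeal →
      ¬ H29.SemistableAt (E.map (algebraMap K (F n))) w →
      ∀ (y : 𝓞 (F n)) (x : 𝓞 (F m)), (y : AlgebraicClosure K) = (x : AlgebraicClosure K) →
        (y ∈ w.asIdeal ↔ x ∈ u.asIdeal) := by
  by_contra hcon
  push Not at hcon
  have hfd : ∀ n, FiniteDimensional K (F n) := fun n => by
    have := hF n
    exact FiniteDimensional.right ℚ K (F n)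
  let G := Gal(AlgebraicClosure K/K)
  have hint : ∀ (L : IntermediateField K (AlgebraicClosure K)),
      Algebra.IsIntegral (𝓞 L) (𝓞 (AlgebraicClosure K)) := by
    intro L
    constructor
    intro x
    have h1 : IsIntegral ℤ x := by
      have h2 : IsIntegral ℤ (algebraMap (𝓞 (AlgebraicClosure K)) (AlgebraicClosure K) x) := x.2
      exact (isIntegral_algebraMap_iff NumberField.RingOfIntegers.coe_injective).1 h2
    exact h1.tower_top
  have hintK : Algebra.IsIntegral (𝓞 K) (𝓞 (AlgebraicClosure K)) := by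
    constructor
    intro x
    have h1 : IsIntegral ℤ x := by
      have h2 : IsIntegral ℤ (algebraMap (𝓞 (AlgebraicClosure K)) (AlgebraicClosure K) x) := x.2
      exact (isIntegral_algebraMap_iff NumberField.RingOfIntegers.coe_injective).1 h2
    exact h1.tower_top
  -- a prime over v
  obtain ⟨P₀, hP₀, hP₀v⟩ := Ideal.nonempty_primesOver (S := 𝓞 (AlgebraicClosure K)) v.asIdeal
  have hP₀ne : P₀ ≠ ⊥ := Ideal.ne_bot_of_liesOver_of_ne_bot v.ne_bot P₀
  have hgprime : ∀ g : G, (g • P₀).IsPrime := fun g => inferInstance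
  have hgne : ∀ g : G, g • P₀ ≠ ⊥ := by
    intro g h
    apply hP₀ne
    rw [← inv_smul_smul g P₀, h, Ideal.smul_bot]
  let C : ℕ → Set G := fun n => {g | (∃ w : HeightOneSpectrum (𝓞 (F n)),
    w.asIdeal = (g • P₀).under (𝓞 (F n)) ∧
      ¬ H29.SemistableAt (E.map (algebraMap K (F n))) w) ∧
    (g • P₀).under (𝓞 (F m)) ≠ u.asIdeal}
  have hCanti : ∀ n, C (n + 1) ⊆ C n := by
    rintro n g ⟨⟨w', hw', hs⟩, hg⟩
    refine ⟨⟨⟨(g • P₀).under (𝓞 (F n)), inferInstance, under_ne_bot (F n) _ (hgne g)⟩, rfl, ?_⟩,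
      hg⟩
    intro hss
    apply hs
    have h1 := hF n
    have h2 := hF (n + 1)
    let _ : Algebra (F n) (F (n + 1)) :=
      (IntermediateField.inclusion (hmono (Nat.le_succ n))).toRingHom.toAlgebra
    have h3 := H29.semi_up (F := F (n + 1)) (E.map (algebraMap K (F n)))
      ⟨(g • P₀).under (𝓞 (F n)), inferInstance, under_ne_bot (F n) _ (hgne g)⟩ w' ⟨by
        rw [hw']
        ext x
        rfl⟩ hss
    rw [WeierstrassCurve.map_map] at h3
    exact h3
  have hCanti' : Antitone C := antitone_nat_of_succ_le hCanti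
  have hCcl : ∀ n, IsClosed (C n) := by
    intro n
    rw [← isOpen_compl_iff, isOpen_iff_forall_mem_open]
    intro g hg
    have hfd2 : FiniteDimensional K (F n ⊔ F m : IntermediateField K (AlgebraicClosure K)) :=
      IntermediateField.finiteDimensional_sup (F n) (F m)
    refine ⟨{q : G | q * g⁻¹ ∈ (F n ⊔ F m).fixingSubgroup}, ?_, ?_, ?_⟩
    · intro q hq hqC
      apply hg
      have hfix : ∀ x ∈ F n ⊔ F m, (q * g⁻¹) x = x := fun x hx =>
        (IntermediateField.mem_fixingSubgroup_iff _ _).1 hq x hx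
      have hmem : ∀ x : 𝓞 (AlgebraicClosure K), (x : AlgebraicClosure K) ∈ F n ⊔ F m →
          (x ∈ q • P₀ ↔ x ∈ g • P₀) := by
        intro x hx
        rw [Ideal.mem_pointwise_smul_iff_inv_smul_mem, Ideal.mem_pointwise_smul_iff_inv_smul_mem]
        have h1 : q⁻¹ • x = g⁻¹ • x := by
          rw [inv_smul_eq_iff, ← mul_smul]
          apply NumberField.RingOfIntegers.ext
          exact (hfix _ hx).symm
        rw [h1]
      obtain ⟨⟨w, hw, hs⟩, hu'⟩ := hqC
      refine ⟨⟨w, ?_, hs⟩, ?_⟩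
      · rw [hw]
        ext x
        exact hmem (algebraMap (𝓞 (F n)) (𝓞 (AlgebraicClosure K)) x)
          ((le_sup_left : F n ≤ F n ⊔ F m) (x : F n).2)
      · intro h
        apply hu'
        rw [← h]
        ext x
        exact hmem (algebraMap (𝓞 (F m)) (𝓞 (AlgebraicClosure K)) x)
          ((le_sup_right : F m ≤ F n ⊔ F m) (x : F m).2)
    · exact (IntermediateField.fixingSubgroup_isOpen (F n ⊔ F m)).preimage
        (continuous_mul_const g⁻¹)
    · change g * g⁻¹ ∈ (F n ⊔ F m).fixingSubgroup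
      rw [mul_inv_cancel]
      exact one_mem _
  have hCne : ∀ n, (C n).Nonempty := by
    intro n
    obtain ⟨n', hn', w, hwv, hs, y, x, hyx, hne⟩ := hcon n
    have := hint (F n')
    obtain ⟨P', hP', hP'w⟩ := Ideal.nonempty_primesOver (S := 𝓞 (AlgebraicClosure K)) w.asIdeal
    have hP'v : P₀.under (𝓞 K) = P'.under (𝓞 K) := by
      have h1 : P'.under (𝓞 K) = (P'.under (𝓞 (F n'))).under (𝓞 K) := by
        ext z
        rfl
      rw [h1, ← hP'w.over, ← hwv.over, ← hP₀v.over]
    obtain ⟨g, hg⟩ := exists_smul_eq (k := K) (Ω := AlgebraicClosure K) P₀ P' hP'v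
    refine ⟨g, hCanti' hn' ⟨⟨w, ?_, hs⟩, ?_⟩⟩
    · rw [← hg]
      exact hP'w.over
    · intro h
      rw [← hg] at h
      have h1 : y ∈ w.asIdeal ↔ x ∈ u.asIdeal := by
        rw [← h, hP'w.over, Ideal.under_def, Ideal.under_def, Ideal.mem_comap, Ideal.mem_comap]
        have h2 : algebraMap (𝓞 (F n')) (𝓞 (AlgebraicClosure K)) y =
            algebraMap (𝓞 (F m)) (𝓞 (AlgebraicClosure K)) x :=
          NumberField.RingOfIntegers.ext hyx
        rw [h2]
      rcases hne with ⟨h3, h4⟩ | ⟨h3, h4⟩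
      · exact h4 (h1.1 h3)
      · exact h3 (h1.2 h4)
  obtain ⟨g, hg⟩ := IsCompact.nonempty_iInter_of_sequence_nonempty_isCompact_isClosed
    C hCanti hCne ((hCcl 0).isCompact) hCcl
  rw [Set.mem_iInter] at hg
  have hPp := hgprime g
  obtain ⟨w, hw, w1, w2, w3⟩ := hBr K (g • P₀) (hgprime g) (hgne g)
  have hneq : ¬ v₀.IsEquiv w := by
    intro heq
    apply (hg 0).2
    apply hu (g • P₀) (hgprime g) (hgne g)
    intro x
    have h1 : v₀ x < 1 ↔ w x < 1 := heq.lt_one_iff
    rw [h1]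
    constructor
    · intro h2
      by_contra h3
      rw [w2 x h3] at h2
      exact lt_irrefl _ h2
    · exact w1 x
  obtain ⟨n₀, hn₀⟩ := semistable_at_place F hmono hF Ki hKi (g • P₀) (by
    intro σ hσ
    refine hall w hw hneq σ ?_
    intro x
    exact H63.v_of_stab (g • P₀) w hw w1 w2 w3 (σ.restrictScalars K) (by
      intro y
      have h1 : (σ.restrictScalars K) • y = σ • y := by
        apply NumberField.RingOfIntegers.ext
        rfl
      rw [h1]
      exact hσ y) x) E
  obtain ⟨w', hw', hs⟩ := (hg n₀).1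
  exact hs (hn₀ n₀ le_rfl w' hw')

/-- **The second alternative**: all non-semistable primes lie over one prime. -/
theorem second (hBr : Bridge_S) (F : ℕ → IntermediateField K (AlgebraicClosure K))
    (hmono : Monotone F) (hF : ∀ n, NumberField (F n))
    (Ki : IntermediateField K (AlgebraicClosure K)) (hKi : Ki = ⨆ n, F n)
    (v₀ : AbsoluteValue (AlgebraicClosure K) ℝ)
    (hall : ∀ w : AbsoluteValue (AlgebraicClosure K) ℝ, w.IsNontrivial → ¬ v₀.IsEquiv w →
      ∀ σ : Gal(AlgebraicClosure K/Ki), (∀ x, w (σ x) = w x) → σ = 1)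
    (E : WeierstrassCurve K) [E.IsElliptic] (m : ℕ) :
    ∃ (u : HeightOneSpectrum (𝓞 (F m))) (n₀ : ℕ), ∀ n, n₀ ≤ n →
      ∀ w : HeightOneSpectrum (𝓞 (F n)),
      ¬ H29.SemistableAt (E.map (algebraMap K (F n))) w →
      ∀ (y : 𝓞 (F n)) (x : 𝓞 (F m)), (y : AlgebraicClosure K) = (x : AlgebraicClosure K) →
        (y ∈ w.asIdeal ↔ x ∈ u.asIdeal) := by
  classical
  have := hF m
  -- the prime u
  obtain ⟨u, hu⟩ : ∃ u : HeightOneSpectrum (𝓞 (F m)), ∀ P : Ideal (𝓞 (AlgebraicClosure K)),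
      P.IsPrime → P ≠ ⊥ → EqP v₀ P → P.under (𝓞 (F m)) = u.asIdeal := by
    by_cases hex : ∃ P₁ : Ideal (𝓞 (AlgebraicClosure K)), P₁.IsPrime ∧ P₁ ≠ ⊥ ∧ EqP v₀ P₁
    · obtain ⟨P₁, h1, h2, h3⟩ := hex
      refine ⟨⟨P₁.under (𝓞 (F m)), inferInstance, under_ne_bot (F m) P₁ h2⟩, ?_⟩
      intro P _ _ hP
      have h4 : P = P₁ := by
        ext x
        rw [← hP x, ← h3 x]
      rw [h4]
    · obtain ⟨I, hI⟩ := Ideal.exists_maximal (𝓞 (F m))
      refine ⟨⟨I, hI.isPrime, Ring.ne_bot_of_isMaximal_of_not_isField hI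
        (NumberField.RingOfIntegers.not_isField (F m))⟩, ?_⟩
      intro P h1 h2 h3
      exact absurd ⟨P, h1, h2, h3⟩ hex
  have hfin : {v : HeightOneSpectrum (𝓞 K) | ¬ H29.SemistableAt E v}.Finite := by
    obtain ⟨W₀, hW₀⟩ := H7.exists_model E
    refine (H7.finite_dvd (H7.model_disc_ne_zero hW₀)).subset ?_
    intro v hv
    by_contra hv'
    exact hv ⟨W₀, hW₀, Or.inl hv'⟩
  choose n₁ hn₁ using second_one hBr F hmono hF Ki hKi v₀ hall E m u hu
  refine ⟨u, hfin.toFinset.sup n₁, fun n hn w hw y x hyx => ?_⟩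
  have := hF n
  have hv : ¬ H29.SemistableAt E (below K w) := fun h =>
    hw (H29.semi_up E (below K w) w (liesOver_below K w) h)
  exact hn₁ (below K w) n ((Finset.le_sup (by simpa using hv)).trans hn) w
    (liesOver_below K w) hw y x hyx

end Pool.Agent.MP_0d9be2.H36
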